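import Pool.Agent.H381.TN.Cut

/-!
# The algebra

`L` is an algebra over the field `K`, `X` an `L`-module, `E = End_L X`. The algebra `RA K L X`
consists of the matrices with rows `(L, DL, X, 0)`, `(DL, L, 0, 0)`, `(0, DX, E, DE)` and
`(0, 0, 0, E)`.
-/

set_option autoImplicit false
set_option linter.unusedSectionVars false
set_option linter.unusedVariables false
set_option linter.unusedSimpArgs false

namespace Pool.Agent.H381.TN

variable (K : Type) [Field K] (L : Type) [Ring L] [Algebra K L] (X : Type) [AddCommGroup X]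
  [Module K X] [Module L X] [IsScalarTower K L X]

/-- `E = End_L X` -/
abbrev EX : Type := X →ₗ[L] X

/-- matrices with rows `(L, DL, X, 0)`, `(DL, L, 0, 0)`, `(0, DX, E, DE)`, `(0, 0, 0, E)` -/
def RA : Type :=
  L × (L →ₗ[K] K) × X × (L →ₗ[K] K) × L × (X →ₗ[K] K) × EX L X × (EX L X →ₗ[K] K) × EX L X

namespace RA

variable {K L X}

instance : AddCommGroup (RA K L X) := inferInstanceAs (AddCommGroup
  (L × (L →ₗ[K] K) × X × (L →ₗ[K] K) × L × (X →ₗ[K] K) × EX L X × (EX L X →ₗ[K] K) × EX L X))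

instance : Module K (RA K L X) := inferInstanceAs (Module K
  (L × (L →ₗ[K] K) × X × (L →ₗ[K] K) × L × (X →ₗ[K] K) × EX L X × (EX L X →ₗ[K] K) × EX L X))

/-- entry -/
def p11 (r : RA K L X) : L := r.1
/-- entry -/
def p12 (r : RA K L X) : L →ₗ[K] K := r.2.1
/-- entry -/
def p13 (r : RA K L X) : X := r.2.2.1
/-- entry -/
def p21 (r : RA K L X) : L →ₗ[K] K := r.2.2.2.1
/-- entry -/
def p22 (r : RA K L X) : L := r.2.2.2.2.1
/-- entry -/
def p32 (r : RA K L X) : X →ₗ[K] K := r.2.2.2.2.2.1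
/-- entry -/
def p33 (r : RA K L X) : EX L X := r.2.2.2.2.2.2.1
/-- entry -/
def p34 (r : RA K L X) : EX L X →ₗ[K] K := r.2.2.2.2.2.2.2.1
/-- entry -/
def p44 (r : RA K L X) : EX L X := r.2.2.2.2.2.2.2.2

/-- constructor -/
def mk (p11 : L) (p12 : L →ₗ[K] K) (p13 : X) (p21 : L →ₗ[K] K) (p22 : L) (p32 : X →ₗ[K] K)
    (p33 : EX L X) (p34 : EX L X →ₗ[K] K) (p44 : EX L X) : RA K L X :=
  (p11, p12, p13, p21, p22, p32, p33, p34, p44)

section simps

variable (q11 : L) (q12 : L →ₗ[K] K) (q13 : X) (q21 : L →ₗ[K] K) (q22 : L) (q32 : X →ₗ[K] K)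
    (q33 : EX L X) (q34 : EX L X →ₗ[K] K) (q44 : EX L X)

@[simp] theorem p11_mk : (mk q11 q12 q13 q21 q22 q32 q33 q34 q44).p11 = q11 := rfl
@[simp] theorem p12_mk : (mk q11 q12 q13 q21 q22 q32 q33 q34 q44).p12 = q12 := rfl
@[simp] theorem p13_mk : (mk q11 q12 q13 q21 q22 q32 q33 q34 q44).p13 = q13 := rfl
@[simp] theorem p21_mk : (mk q11 q12 q13 q21 q22 q32 q33 q34 q44).p21 = q21 := rfl
@[simp] theorem p22_mk : (mk q11 q12 q13 q21 q22 q32 q33 q34 q44).p22 = q22 := rfl
@[simp] theorem p32_mk : (mk q11 q12 q13 q21 q22 q32 q33 q34 q44).p32 = q32 := rfl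
@[simp] theorem p33_mk : (mk q11 q12 q13 q21 q22 q32 q33 q34 q44).p33 = q33 := rfl
@[simp] theorem p34_mk : (mk q11 q12 q13 q21 q22 q32 q33 q34 q44).p34 = q34 := rfl
@[simp] theorem p44_mk : (mk q11 q12 q13 q21 q22 q32 q33 q34 q44).p44 = q44 := rfl

end simps

@[simp] theorem p11_add (r s : RA K L X) : (r + s).p11 = r.p11 + s.p11 := rfl
@[simp] theorem p12_add (r s : RA K L X) : (r + s).p12 = r.p12 + s.p12 := rfl
@[simp] theorem p13_add (r s : RA K L X) : (r + s).p13 = r.p13 + s.p13 := rfl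
@[simp] theorem p21_add (r s : RA K L X) : (r + s).p21 = r.p21 + s.p21 := rfl
@[simp] theorem p22_add (r s : RA K L X) : (r + s).p22 = r.p22 + s.p22 := rfl
@[simp] theorem p32_add (r s : RA K L X) : (r + s).p32 = r.p32 + s.p32 := rfl
@[simp] theorem p33_add (r s : RA K L X) : (r + s).p33 = r.p33 + s.p33 := rfl
@[simp] theorem p34_add (r s : RA K L X) : (r + s).p34 = r.p34 + s.p34 := rfl
@[simp] theorem p44_add (r s : RA K L X) : (r + s).p44 = r.p44 + s.p44 := rfl
@[simp] theorem p11_zero : (0 : RA K L X).p11 = 0 := rfl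
@[simp] theorem p12_zero : (0 : RA K L X).p12 = 0 := rfl
@[simp] theorem p13_zero : (0 : RA K L X).p13 = 0 := rfl
@[simp] theorem p21_zero : (0 : RA K L X).p21 = 0 := rfl
@[simp] theorem p22_zero : (0 : RA K L X).p22 = 0 := rfl
@[simp] theorem p32_zero : (0 : RA K L X).p32 = 0 := rfl
@[simp] theorem p33_zero : (0 : RA K L X).p33 = 0 := rfl
@[simp] theorem p34_zero : (0 : RA K L X).p34 = 0 := rfl
@[simp] theorem p44_zero : (0 : RA K L X).p44 = 0 := rfl
@[simp] theorem p11_ksmul (c : K) (r : RA K L X) : (c • r).p11 = c • r.p11 := rfl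
@[simp] theorem p12_ksmul (c : K) (r : RA K L X) : (c • r).p12 = c • r.p12 := rfl
@[simp] theorem p13_ksmul (c : K) (r : RA K L X) : (c • r).p13 = c • r.p13 := rfl
@[simp] theorem p21_ksmul (c : K) (r : RA K L X) : (c • r).p21 = c • r.p21 := rfl
@[simp] theorem p22_ksmul (c : K) (r : RA K L X) : (c • r).p22 = c • r.p22 := rfl
@[simp] theorem p32_ksmul (c : K) (r : RA K L X) : (c • r).p32 = c • r.p32 := rfl
@[simp] theorem p33_ksmul (c : K) (r : RA K L X) : (c • r).p33 = c • r.p33 := rfl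
@[simp] theorem p34_ksmul (c : K) (r : RA K L X) : (c • r).p34 = c • r.p34 := rfl
@[simp] theorem p44_ksmul (c : K) (r : RA K L X) : (c • r).p44 = c • r.p44 := rfl

theorem ext' {r s : RA K L X} (h11 : r.p11 = s.p11) (h12 : ∀ l, r.p12 l = s.p12 l)
    (h13 : r.p13 = s.p13) (h21 : ∀ l, r.p21 l = s.p21 l) (h22 : r.p22 = s.p22)
    (h32 : ∀ x, r.p32 x = s.p32 x) (h33 : ∀ x, r.p33 x = s.p33 x)
    (h34 : ∀ u, r.p34 u = s.p34 u) (h44 : ∀ x, r.p44 x = s.p44 x) : r = s :=
  Prod.ext h11 (Prod.ext (LinearMap.ext h12) (Prod.ext h13 (Prod.ext (LinearMap.ext h21)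
    (Prod.ext h22 (Prod.ext (LinearMap.ext h32) (Prod.ext (LinearMap.ext h33)
      (Prod.ext (LinearMap.ext h34) (LinearMap.ext h44))))))))

/-- `l ↦ f (l a)` -/
def lf (a : L) (f : L →ₗ[K] K) : L →ₗ[K] K := f ∘ₗ LinearMap.mulRight K a
/-- `l ↦ f (a l)` -/
def rf (f : L →ₗ[K] K) (a : L) : L →ₗ[K] K := f ∘ₗ LinearMap.mulLeft K a
/-- `l ↦ g (l x)` -/
def xg (x : X) (g : X →ₗ[K] K) : L →ₗ[K] K where
  toFun l := g (l • x)
  map_add' l l' := by rw [add_smul, map_add]
  map_smul' c l := by rw [smul_assoc, map_smul]; rfl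
/-- `x ↦ g (a x)` -/
def rg (g : X →ₗ[K] K) (a : L) : X →ₗ[K] K where
  toFun x := g (a • x)
  map_add' x x' := by rw [smul_add, map_add]
  map_smul' c x := by
    rw [RingHom.id_apply, ← algebraMap_smul L c x, smul_smul, ← Algebra.commutes, ← smul_smul,
      algebraMap_smul, map_smul]
/-- `x ↦ g (u x)` -/
def ug (u : EX L X) (g : X →ₗ[K] K) : X →ₗ[K] K where
  toFun x := g (u x)
  map_add' x x' := by rw [map_add, map_add]
  map_smul' c x := by
    rw [RingHom.id_apply, ← algebraMap_smul L c x, map_smul, algebraMap_smul, map_smul]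
theorem comp_ksmul (u v : EX L X) (c : K) : u ∘ₗ (c • v) = c • (u ∘ₗ v) := by
  ext y
  show u (c • v y) = c • u (v y)
  rw [← algebraMap_smul L c (v y), map_smul, algebraMap_smul]

theorem ksmul_comp (u v : EX L X) (c : K) : (c • u) ∘ₗ v = c • (u ∘ₗ v) := rfl

/-- `v ↦ g (u v)` -/
def ud (u : EX L X) (g : EX L X →ₗ[K] K) : EX L X →ₗ[K] K where
  toFun v := g (u ∘ₗ v)
  map_add' x x' := by rw [LinearMap.comp_add, map_add]
  map_smul' c x := by rw [comp_ksmul, map_smul, RingHom.id_apply]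
/-- `v ↦ g (v u)` -/
def du (g : EX L X →ₗ[K] K) (u : EX L X) : EX L X →ₗ[K] K where
  toFun v := g (v ∘ₗ u)
  map_add' x x' := by rw [LinearMap.add_comp, map_add]
  map_smul' c x := by rw [LinearMap.smul_comp, map_smul, RingHom.id_apply]

@[simp] theorem lf_apply (a : L) (f : L →ₗ[K] K) (l : L) : lf a f l = f (l * a) := rfl
@[simp] theorem rf_apply (a : L) (f : L →ₗ[K] K) (l : L) : rf f a l = f (a * l) := rfl
@[simp] theorem xg_apply (x : X) (g : X →ₗ[K] K) (l : L) : xg x g l = g (l • x) := rfl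
@[simp] theorem rg_apply (a : L) (g : X →ₗ[K] K) (x : X) : rg g a x = g (a • x) := rfl
@[simp] theorem ug_apply (u : EX L X) (g : X →ₗ[K] K) (x : X) : ug u g x = g (u x) := rfl
@[simp] theorem ud_apply (u : EX L X) (g : EX L X →ₗ[K] K) (v : EX L X) :
    ud u g v = g (u ∘ₗ v) := rfl
@[simp] theorem du_apply (u : EX L X) (g : EX L X →ₗ[K] K) (v : EX L X) :
    du g u v = g (v ∘ₗ u) := rfl

instance : Mul (RA K L X) := ⟨fun x y => mk (x.p11 * y.p11)
  (lf x.p11 y.p12 + rf x.p12 y.p22 + xg x.p13 y.p32)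
  (x.p11 • y.p13 + y.p33 x.p13)
  (lf x.p22 y.p21 + rf x.p21 y.p11)
  (x.p22 * y.p22)
  (rg x.p32 y.p22 + ug x.p33 y.p32)
  (y.p33 ∘ₗ x.p33)
  (ud x.p33 y.p34 + du x.p34 y.p44)
  (y.p44 ∘ₗ x.p44)⟩

instance : One (RA K L X) := ⟨mk 1 0 0 0 1 0 LinearMap.id 0 LinearMap.id⟩

@[simp] theorem p11_mul (x y : RA K L X) : (x * y).p11 = x.p11 * y.p11 := rfl
@[simp] theorem p12_mul (x y : RA K L X) :
  (x * y).p12 = lf x.p11 y.p12 + rf x.p12 y.p22 + xg x.p13 y.p32 := rfl
@[simp] theorem p13_mul (x y : RA K L X) : (x * y).p13 = x.p11 • y.p13 + y.p33 x.p13 := rfl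
@[simp] theorem p21_mul (x y : RA K L X) : (x * y).p21 = lf x.p22 y.p21 + rf x.p21 y.p11 := rfl
@[simp] theorem p22_mul (x y : RA K L X) : (x * y).p22 = x.p22 * y.p22 := rfl
@[simp] theorem p32_mul (x y : RA K L X) : (x * y).p32 = rg x.p32 y.p22 + ug x.p33 y.p32 := rfl
@[simp] theorem p33_mul (x y : RA K L X) : (x * y).p33 = y.p33 ∘ₗ x.p33 := rfl
@[simp] theorem p34_mul (x y : RA K L X) : (x * y).p34 = ud x.p33 y.p34 + du x.p34 y.p44 := rfl
@[simp] theorem p44_mul (x y : RA K L X) : (x * y).p44 = y.p44 ∘ₗ x.p44 := rfl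
@[simp] theorem p11_one : (1 : RA K L X).p11 = 1 := rfl
@[simp] theorem p12_one : (1 : RA K L X).p12 = 0 := rfl
@[simp] theorem p13_one : (1 : RA K L X).p13 = 0 := rfl
@[simp] theorem p21_one : (1 : RA K L X).p21 = 0 := rfl
@[simp] theorem p22_one : (1 : RA K L X).p22 = 1 := rfl
@[simp] theorem p32_one : (1 : RA K L X).p32 = 0 := rfl
@[simp] theorem p33_one : (1 : RA K L X).p33 = LinearMap.id := rfl
@[simp] theorem p34_one : (1 : RA K L X).p34 = 0 := rfl
@[simp] theorem p44_one : (1 : RA K L X).p44 = LinearMap.id := rfl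

theorem mul_assoc' (x y z : RA K L X) : x * y * z = x * (y * z) := by
  refine ext' ?_ ?_ ?_ ?_ ?_ ?_ ?_ ?_ ?_
  · simp [mul_assoc]
  · intro l
    simp [mul_assoc, smul_smul, add_assoc, smul_add]
    abel
  · simp [mul_smul, add_assoc, smul_add]
  · intro l
    simp [mul_assoc, add_assoc]
  · simp [mul_assoc]
  · intro l
    simp [mul_smul, add_assoc]
  · intro l
    simp
  · intro l
    simp [LinearMap.comp_assoc, add_assoc]
  · intro l
    simp

theorem one_mul' (x : RA K L X) : 1 * x = x := by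
  refine ext' ?_ ?_ ?_ ?_ ?_ ?_ ?_ ?_ ?_ <;> simp

theorem mul_one' (x : RA K L X) : x * 1 = x := by
  refine ext' ?_ ?_ ?_ ?_ ?_ ?_ ?_ ?_ ?_ <;> simp

theorem left_distrib' (x y z : RA K L X) : x * (y + z) = x * y + x * z := by
  refine ext' ?_ ?_ ?_ ?_ ?_ ?_ ?_ ?_ ?_
  · simp [mul_add]
  · intro l
    simp [add_mul]
    abel
  · simp
    abel
  · intro l
    simp [add_mul]
    abel
  · simp [mul_add]
  · intro l
    simp [add_smul]
    abel
  · intro l
    simp
  · intro l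
    simp [LinearMap.comp_add]
    abel
  · intro l
    simp

theorem right_distrib' (x y z : RA K L X) : (x + y) * z = x * z + y * z := by
  refine ext' ?_ ?_ ?_ ?_ ?_ ?_ ?_ ?_ ?_
  · simp [add_mul]
  · intro l
    simp [mul_add]
    abel
  · simp [add_smul]
    abel
  · intro l
    simp [mul_add]
    abel
  · simp [add_mul]
  · intro l
    simp
    abel
  · intro l
    simp
  · intro l
    simp [LinearMap.add_comp]
    abel
  · intro l
    simp

instance : Ring (RA K L X) :=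
  { (inferInstance : AddCommGroup (RA K L X)), (inferInstance : Mul (RA K L X)),
    (inferInstance : One (RA K L X)) with
    mul_assoc := mul_assoc'
    one_mul := one_mul'
    mul_one := mul_one'
    left_distrib := left_distrib'
    right_distrib := right_distrib'
    zero_mul := fun x => by
      refine ext' ?_ ?_ ?_ ?_ ?_ ?_ ?_ ?_ ?_ <;> simp
    mul_zero := fun x => by
      refine ext' ?_ ?_ ?_ ?_ ?_ ?_ ?_ ?_ ?_ <;> simp }

instance : Algebra K (RA K L X) := Algebra.ofModule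
  (fun c x y => by
    refine ext' ?_ ?_ ?_ ?_ ?_ ?_ ?_ ?_ ?_
    · simp
    · intro l
      simp [mul_add, smul_comm l c]
    · simp [smul_add, smul_assoc]
    · intro l
      simp [mul_add]
    · simp
    · intro l
      simp [mul_add]
    · intro l
      simp
    · intro l
      simp [mul_add, ksmul_comp]
    · intro l
      simp)
  (fun c x y => by
    refine ext' ?_ ?_ ?_ ?_ ?_ ?_ ?_ ?_ ?_
    · simp
    · intro l
      simp [mul_add]
    · simp [smul_add, smul_comm x.p11 c]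
    · intro l
      simp [mul_add]
    · simp
    · intro l
      simp [mul_add]
    · intro l
      simp
    · intro l
      simp [mul_add, comp_ksmul]
    · intro l
      simp)

instance [Module.Finite K L] [Module.Finite K X] : Module.Finite K (EX L X) := by
  let r : EX L X →ₗ[K] (X →ₗ[K] X) := LinearMap.restrictScalarsₗ K L X X K
  exact Module.Finite.of_injective r (LinearMap.restrictScalars_injective K)

instance [Module.Finite K L] [Module.Finite K X] : Module.Finite K (RA K L X) :=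
  inferInstanceAs (Module.Finite K
  (L × (L →ₗ[K] K) × X × (L →ₗ[K] K) × L × (X →ₗ[K] K) × EX L X × (EX L X →ₗ[K] K) × EX L X))

end RA

end Pool.Agent.H381.TN
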