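import Pool.Agent.H381.TN.Cut

/-!
# Injective modules `D(eA)`, and sums in the arguments of `Ext`
-/

set_option autoImplicit false
set_option linter.unusedSectionVars false
set_option linter.unusedVariables false

open CategoryTheory CategoryTheory.Abelian
open Pool.Agent.H190.NK Pool.Agent.H381.NK

namespace Pool.Agent.H381.TN

variable {K : Type} [Field K] {A : Type} [Ring A] [Algebra K A]

/-- `I` is isomorphic to `D(eA)`; `ev` is the evaluation at `e` -/
structure CoRep {I : Type} [AddCommGroup I] [Module A I] (e : A) (ev : I → K) : Prop where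
  idem : e * e = e
  ev_add : ∀ v w, ev (v + w) = ev v + ev w
  ev_e : ∀ v, ev (e • v) = ev v
  ev_smul : ∀ (c : K) (v : I), ev (algebraMap K A c • v) = c * ev v
  nondeg : ∀ v : I, (∀ a : A, ev (a • v) = 0) → v = 0
  ex : ∀ Φ : A →ₗ[K] K, (∀ a, Φ (e * a) = Φ a) → ∃ v : I, ∀ a, ev (a • v) = Φ a

namespace CoRep

variable {I : Type} [AddCommGroup I] [Module A I] {e : A} {ev : I → K} (h : CoRep e ev)

include h

theorem ev_neg (v : I) : ev (-v) = - ev v := by
  have h1 := h.ev_add v (-v)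
  have h2 := h.ev_add 0 0
  rw [add_neg_cancel] at h1
  rw [add_zero] at h2
  have h3 : ev 0 = 0 := by simpa using h2
  rw [h3] at h1
  exact (neg_eq_of_add_eq_zero_right h1.symm).symm

theorem ev_sub (v w : I) : ev (v - w) = ev v - ev w := by
  rw [sub_eq_add_neg, h.ev_add, h.ev_neg, sub_eq_add_neg]

theorem eq_of {v w : I} (hvw : ∀ a : A, ev (a • v) = ev (a • w)) : v = w := by
  rw [← sub_eq_zero]
  refine h.nondeg _ fun a => ?_
  rw [smul_sub, h.ev_sub, hvw, sub_self]

theorem hom_ex {M : Type} [AddCommGroup M] [Module A M] [Module K M] [IsScalarTower K A M]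
    (l : M →ₗ[K] K) : ∃ g : M →ₗ[A] I, ∀ m, ev (g m) = l (e • m) := by
  let Φ : M → A →ₗ[K] K := fun m =>
    { toFun := fun a => l (e • a • m)
      map_add' := fun a b => by rw [add_smul, smul_add, map_add]
      map_smul' := fun c a => by
        rw [RingHom.id_apply, smul_assoc, smul_algebra_smul_comm, map_smul] }
  have hΦ : ∀ m a, Φ m (e * a) = Φ m a := fun m a => by
    show l (e • (e * a) • m) = l (e • a • m)
    rw [smul_smul, smul_smul, ← mul_assoc, h.idem]
  choose v hv using fun m => h.ex (Φ m) (hΦ m)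
  have hv' : ∀ m a, ev (a • v m) = l (e • a • m) := hv
  refine ⟨{ toFun := v, map_add' := fun m m' => h.eq_of fun a => ?_,
            map_smul' := fun b m => h.eq_of fun a => ?_ }, fun m => ?_⟩
  · rw [smul_add, h.ev_add, hv', hv', hv', smul_add, smul_add, map_add]
  · rw [RingHom.id_apply, smul_smul a b (v m), hv', hv', mul_smul]
  · have h1 := hv' m e
    rw [h.ev_e] at h1
    rw [smul_smul, h.idem] at h1
    exact h1

theorem injective : Module.Injective A I := by
  refine ⟨fun P Q _ _ _ _ f hf g => ?_⟩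
  let : Module K P := Module.compHom P (algebraMap K A)
  let : Module K Q := Module.compHom Q (algebraMap K A)
  have hP : ∀ (c : K) (p : P), c • p = algebraMap K A c • p := fun _ _ => rfl
  have hQ : ∀ (c : K) (p : Q), c • p = algebraMap K A c • p := fun _ _ => rfl
  have tP : IsScalarTower K A P := ⟨fun c a p => by
    rw [hP, smul_smul, Algebra.smul_def]⟩
  have tQ : IsScalarTower K A Q := ⟨fun c a p => by
    rw [hQ, smul_smul, Algebra.smul_def]⟩
  let fK : P →ₗ[K] Q :=
    { toFun := f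
      map_add' := map_add f
      map_smul' := fun c p => by rw [hP, map_smul, RingHom.id_apply, hQ] }
  let l₀ : P →ₗ[K] K :=
    { toFun := fun p => ev (g p)
      map_add' := fun p p' => by rw [map_add, h.ev_add]
      map_smul' := fun c p => by
        rw [hP, map_smul, h.ev_smul, RingHom.id_apply, smul_eq_mul] }
  obtain ⟨l, hl⟩ := LinearMap.dualMap_surjective_of_injective (f := fK) (by exact hf) l₀
  have hl' : ∀ p : P, l (f p) = ev (g p) := fun p => LinearMap.congr_fun hl p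
  obtain ⟨k, hk⟩ := h.hom_ex l
  refine ⟨k, fun p => h.eq_of fun a => ?_⟩
  rw [← map_smul, ← map_smul, hk, ← map_smul, hl', map_smul, h.ev_e, map_smul]

end CoRep

section sums

variable {R : Type} [Ring R] {n : ℕ}

theorem ext_sum {J : Type} (s : Finset J) {B : ModuleCat.{0} R} (C : J → ModuleCat.{0} R)
    (p : ∀ j, B ⟶ C j) (q : ∀ j, C j ⟶ B) (h : ∑ j ∈ s, p j ≫ q j = 𝟙 B) (Y : ModuleCat.{0} R)
    (hC : ∀ j, Subsingleton (Ext (C j) Y n)) : Subsingleton (Ext B Y n) := by
  refine subsingleton_of_forall_eq 0 fun x => ?_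
  have h1 : x = (Ext.mk₀ (∑ j ∈ s, p j ≫ q j)).comp x (zero_add n) := by
    rw [h, Ext.mk₀_id_comp]
  have h2 : Ext.mk₀ (∑ j ∈ s, p j ≫ q j) = ∑ j ∈ s, Ext.mk₀ (p j ≫ q j) := by
    show Ext.addEquiv₀.symm _ = ∑ j ∈ s, Ext.addEquiv₀.symm _
    rw [map_sum]
  rw [h1, h2]
  rw [← Ext.bilinearComp_apply_apply, map_sum, AddMonoidHom.finsetSum_apply]
  refine Finset.sum_eq_zero fun j _ => ?_
  rw [Ext.bilinearComp_apply_apply, ← Ext.mk₀_comp_mk₀_assoc,
    Subsingleton.elim ((Ext.mk₀ (q j)).comp x (zero_add n)) 0, Ext.comp_zero]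

theorem ext_sum' {J : Type} (s : Finset J) {B : ModuleCat.{0} R} (C : J → ModuleCat.{0} R)
    (p : ∀ j, B ⟶ C j) (q : ∀ j, C j ⟶ B) (h : ∑ j ∈ s, p j ≫ q j = 𝟙 B) (Y : ModuleCat.{0} R)
    (hC : ∀ j, Subsingleton (Ext Y (C j) n)) : Subsingleton (Ext Y B n) := by
  refine subsingleton_of_forall_eq 0 fun x => ?_
  have h1 : x = x.comp (Ext.mk₀ (∑ j ∈ s, p j ≫ q j)) (add_zero n) := by
    rw [h, Ext.comp_mk₀_id]
  have h2 : Ext.mk₀ (∑ j ∈ s, p j ≫ q j) = ∑ j ∈ s, Ext.mk₀ (p j ≫ q j) := by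
    show Ext.addEquiv₀.symm _ = ∑ j ∈ s, Ext.addEquiv₀.symm _
    rw [map_sum]
  rw [h1, h2]
  rw [← Ext.bilinearComp_apply_apply, map_sum]
  refine Finset.sum_eq_zero fun j _ => ?_
  rw [Ext.bilinearComp_apply_apply, ← Ext.mk₀_comp_mk₀, ← Ext.comp_assoc_of_third_deg_zero,
    Subsingleton.elim (x.comp (Ext.mk₀ (p j)) (add_zero n)) 0, Ext.zero_comp]

end sums

end Pool.Agent.H381.TN
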