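import Pool.Agent.H381.TN.ExtA

/-!
# Conclusion: `Ext^i_A(M, A) = 0` for injective `M`, and dominant dimension zero
-/

set_option autoImplicit false
set_option linter.unusedSectionVars false
set_option linter.unusedVariables false
set_option linter.unusedSimpArgs false

open CategoryTheory CategoryTheory.Abelian
open Pool.Agent.H190.NK Pool.Agent.H381.NK Pool.Agent.H379.GS

namespace Pool.Agent.H381.TN

section general

variable {K : Type} [Field K] {A : Type} [Ring A] [Algebra K A]

/-- If all `D(e_j A)` have no extensions by `Y`, then no injective module does. -/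
theorem ext_injective {m : ℕ} (eps : Fin m → A) (hs : ∑ j, eps j = 1) (Y : ModuleCat.{0} A)
    (n : ℕ)
    (h : ∀ j, ∃ (I : ModuleCat.{0} A) (ev : I → K), CoRep (eps j) ev ∧ Subsingleton (Ext I Y n))
    (M : Type) [AddCommGroup M] [Module A M] [Module K M] [IsScalarTower K A M]
    [Module.Finite K M] (hM : Module.Injective A M) :
    Subsingleton (Ext (ModuleCat.of A M) Y n) := by
  choose I ev hC hE using h
  let b := Module.finBasis K M
  choose g hg using fun (p : Fin (Module.finrank K M) × Fin m) =>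
    (hC p.2).hom_ex (M := M) (b.coord p.1)
  let Z : Type := ∀ p : Fin (Module.finrank K M) × Fin m, I p.2
  let f : M →ₗ[A] Z := LinearMap.pi g
  have hf : Function.Injective f := by
    rw [← LinearMap.ker_eq_bot, LinearMap.ker_eq_bot']
    intro q hq
    have h1 : ∀ p, g p q = 0 := fun p => congrFun hq p
    have h2 : ∀ j, eps j • q = 0 := by
      intro j
      apply b.ext_elem
      intro i
      have h3 := hg (i, j) q
      rw [h1] at h3
      have h4 : ev j 0 = 0 := by
        have := (hC j).ev_sub 0 0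
        rwa [sub_zero, sub_self] at this
      rw [h4] at h3
      rw [map_zero, Finsupp.zero_apply]
      exact h3.symm
    rw [← one_smul A q, ← hs, Finset.sum_smul]
    exact Finset.sum_eq_zero fun j _ => h2 j
  obtain ⟨r, hr⟩ := hM.out f hf LinearMap.id
  refine ext_retr f r hr Y n ?_
  refine ext_sum Finset.univ (fun p : Fin (Module.finrank K M) × Fin m => I p.2)
    (fun p => ModuleCat.ofHom (LinearMap.proj p))
    (fun p => ModuleCat.ofHom (LinearMap.single A (fun p => I p.2) p)) ?_ Y fun p => hE p.2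
  refine ModuleCat.hom_ext (LinearMap.ext fun v => ?_)
  rw [ModuleCat.hom_sum, LinearMap.sum_apply]
  show ∑ p, Pi.single p (v p) = v
  exact Finset.univ_sum_single v

end general

namespace RA

variable {K : Type} [Field K] {L : Type} [Ring L] [Algebra K L] {X : Type} [AddCommGroup X]
  [Module K X] [Module L X] [IsScalarTower K L X]
  [Module.Finite K L] [Module.Finite K X]

/-- **Main vanishing theorem.** -/
theorem ext_main [Module (T K L) X] (hX : ∀ (t : T K L) (x : X), t • x = t.fst • x)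
    (hE : ∀ n : ℕ,
      Subsingleton (Ext.{0} (ModuleCat.of (T K L) X) (ModuleCat.of (T K L) X) (n + 1)))
    (M : Type) [AddCommGroup M] [Module (RA K L X) M] [Module K M]
    [IsScalarTower K (RA K L X) M] [Module.Finite K M] (hM : Module.Injective (RA K L X) M)
    (n : ℕ) : Subsingleton (Ext.{0} (ModuleCat.of (RA K L X) M)
      (ModuleCat.of (RA K L X) (RA K L X)) (n + 1)) := by
  refine ext_injective (K := K) (m := 3) ![e0, e3, e4] ?_ _ (n + 1) (fun j => ?_) M hM
  · rw [Fin.sum_univ_three]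
    exact sum_e
  · fin_cases j
    · exact ⟨ModuleCat.of _ (Col (e0 : RA K L X)), ev0, coRep0, ext_I0 n⟩
    · exact ⟨ModuleCat.of _ (Ib K L X), Ib.ev, Ib.coRep, ext_Ib hX hE n⟩
    · exact ⟨ModuleCat.of _ (Iw K L X), Iw.ev, Iw.coRep, ext_Iw hX hE n⟩

/-- maps `D(e₃ A) → A` kill the functionals `u ↦ f (u x)` -/
theorem hom_Ib_A (k : Ib K L X →ₗ[RA K L X] RA K L X) (f : X →ₗ[K] K) (x : X) :
    k (Ib.mk 0 (Ib.xe f x) 0) = 0 := by
  have h1 : (Ib.mk 0 (Ib.xe f x) 0 : Ib K L X) =
      (u32 f : RA K L X) • (Ib.mk x 0 0 : Ib K L X) := by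
    refine Ib.ext ?_ ?_ ?_ <;> simp [u32_def]
  have h2 : (Ib.mk 0 (Ib.xe f x) 0 : Ib K L X) =
      (u34 (Ib.xe f x) : RA K L X) • (Ib.mk 0 0 LinearMap.id : Ib K L X) := by
    refine Ib.ext ?_ ?_ ?_ <;> simp [u34_def]
  have h3 : k (Ib.mk 0 (Ib.xe f x) 0) = u32 f * k (Ib.mk x 0 0) := by
    rw [h1, map_smul, smul_eq_mul]
  have h4 : k (Ib.mk 0 (Ib.xe f x) 0) = u34 (Ib.xe f x) * k (Ib.mk 0 0 LinearMap.id) := by
    rw [h2, map_smul, smul_eq_mul]
  refine ext' ?_ ?_ ?_ ?_ ?_ ?_ ?_ ?_ ?_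
  · rw [h3]; simp [u32_def]
  · rw [h4]; simp [u34_def]
  · rw [h3]; simp [u32_def]
  · rw [h3]; simp [u32_def]
  · rw [h3]; simp [u32_def]
  · rw [h4]; simp [u34_def]
  · rw [h3]; simp [u32_def]
  · rw [h3]; simp [u32_def]
  · rw [h3]; simp [u32_def]

/-- `A` has dominant dimension zero: it does not embed in a projective-injective module. -/
theorem no_embedding [Module (T K L) X] [Nontrivial X] (J : Type) [AddCommGroup J] [Module (RA K L X) J]
    (hP : Module.Projective (RA K L X) J) (hI : Module.Injective (RA K L X) J)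
    (ε : RA K L X →ₗ[RA K L X] J) (hε : Function.Injective ε) : False := by
  obtain ⟨x, hx⟩ := exists_ne (0 : X)
  have hf : ∃ f : X →ₗ[K] K, f x ≠ 0 := by
    by_contra hcon
    push Not at hcon
    exact hx ((Module.forall_dual_apply_eq_zero_iff K x).1 hcon)
  obtain ⟨f, hf⟩ := hf
  obtain ⟨h, hh⟩ := hI.out (jw (K := K) (L := L) (X := X))
    (fun c d h => ext_col4 (fun u => congrArg (fun v : Ib K L X => v.g u) h)
      (fun x => congrArg (fun v : Ib K L X => v.b x) h)) (ε ∘ₗ (Col (e4 : RA K L X)).subtype)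
  let c : Col (e4 : RA K L X) := ⟨RA.mk 0 0 0 0 0 0 0 (Ib.xe f x) 0, mem_col4 _ _⟩
  have h1 : h (Ib.mk 0 (Ib.xe f x) 0) = ε c.1 := hh c
  obtain ⟨s, hs⟩ := (Module.projective_def (R := RA K L X) (P := J)).1 hP
  have h2 : s (h (Ib.mk 0 (Ib.xe f x) 0)) = 0 := by
    refine Finsupp.ext fun y => ?_
    exact hom_Ib_A ((Finsupp.lapply y) ∘ₗ s ∘ₗ h) f x
  have h3 : h (Ib.mk 0 (Ib.xe f x) 0) = 0 := by
    rw [← hs (h (Ib.mk 0 (Ib.xe f x) 0)), h2, map_zero]
  rw [h1, ← map_zero ε] at h3
  have h4 := hε h3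
  have h5 : (Ib.xe f x : EX L X →ₗ[K] K) = 0 := congrArg RA.p34 h4
  exact hf (LinearMap.congr_fun h5 LinearMap.id)

end RA

end Pool.Agent.H381.TN
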