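import Pool.Agent.H379.NK.TY17
import Pool.Agent.H381.TN.Final

/-!
# Tachikawa's first conjecture fails for an algebra with dominant dimension zero
-/

set_option autoImplicit false
set_option linter.unusedSectionVars false
set_option linter.unusedVariables false

open CategoryTheory CategoryTheory.Abelian
open Pool.Agent.H379.GS Pool.Agent.H379.NK

namespace Pool.Agent.H381.TN

section inst

variable (K : Type) [Field K] [CharZero K]

instance modL : Module (YY K) (XX K) :=
  Module.compHom (XX K) (TrivSqZeroExt.inlHom (YY K) (DA K (YY K)))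

instance modK : Module K (XX K) := Module.compHom (XX K) (algebraMap K (YY K))

theorem smulL_def (l : YY K) (x : XX K) : l • x = (TrivSqZeroExt.inl l : TT K) • x := rfl

theorem smulK_def (c : K) (x : XX K) : c • x = (algebraMap K (YY K) c) • x := rfl

instance towL : IsScalarTower K (YY K) (XX K) := ⟨fun c l x => by
  rw [smulK_def, smul_smul, Algebra.smul_def]⟩

instance towT : IsScalarTower K (TT K) (XX K) := ⟨fun c t x => by
  have h1 : c • x = (algebraMap K (TT K) c) • x := rfl
  have h2 : ∀ y : XX K, c • y = (algebraMap K (TT K) c) • y := fun _ => rfl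
  have h3 : c • t = algebraMap K (TT K) c * t := Algebra.smul_def c t
  rw [h2, smul_smul, h3]⟩

theorem smulT (t : T K (YY K)) (x : XX K) : t • x = t.fst • x := by
  conv_lhs => rw [← TrivSqZeroExt.inl_fst_add_inr_snd_eq t]
  rw [add_smul, inr_smul, add_zero]
  rfl

instance finXK : Module.Finite K (XX K) := Module.Finite.trans (TT K) (XX K)

end inst

/-- A finite-dimensional algebra `A` with `Ext^i_A(M, A) = 0` for all finite-dimensional injective
modules `M` and all `i ≥ 1` that does not embed in a projective and injective module. -/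
theorem main : ∃ (A : Type) (_ : Ring A) (_ : Algebra ℚ A), Module.Finite ℚ A ∧
    (∀ (M : ModuleCat.{0} A), Module.Injective A M → Module.Finite A M → ∀ i : ℕ, 1 ≤ i →
      Subsingleton (Ext.{0} M (ModuleCat.of A A) i)) ∧
    ∀ (J : Type) [AddCommGroup J] [Module A J], Module.Projective A J → Module.Injective A J →
      ∀ ε : A →ₗ[A] J, ¬ Function.Injective ε := by
  refine ⟨RA ℚ (YY ℚ) (XX ℚ), inferInstance, inferInstance, inferInstance, ?_, ?_⟩
  · intro M hI hF i hi
    obtain ⟨n, rfl⟩ : ∃ n, i = n + 1 := ⟨i - 1, by omega⟩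
    let : Module ℚ M := Module.compHom M (algebraMap ℚ (RA ℚ (YY ℚ) (XX ℚ)))
    have : IsScalarTower ℚ (RA ℚ (YY ℚ) (XX ℚ)) M := ⟨fun c t p => by
      change (c • t) • p = algebraMap ℚ (RA ℚ (YY ℚ) (XX ℚ)) c • (t • p)
      rw [smul_smul, Algebra.smul_def]⟩
    have : Module.Finite ℚ M := Module.Finite.trans (RA ℚ (YY ℚ) (XX ℚ)) M
    exact RA.ext_main (K := ℚ) (L := YY ℚ) (X := XX ℚ) (smulT ℚ)
      (fun n => ext_XX (n + 1) (by omega)) M hI n
  · intro J _ _ hP hI ε hε
    have : Nontrivial (XX ℚ) := XX_nontrivial ℚ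
    exact RA.no_embedding J hP hI ε hε

end Pool.Agent.H381.TN
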