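import Pool.Agent.H381.NK.ExtB

/-!
# The functor `N ↦ Hom_T(eA, N)` and `Ext`

`ι : T → A` is a multiplicative additive map, `e = ι 1`. For an `A`-module `M`, `eM` is a
`T`-module. If `Ext^i_T(eA, N) = 0 = Ext^i_T(eM, N)` for `i ≥ 1` then
`Ext^i_A(M, Hom_T(eA, N)) = 0` for `i ≥ 1`.
-/

set_option autoImplicit false
set_option linter.unusedSectionVars false
set_option linter.unusedVariables false

open CategoryTheory CategoryTheory.Abelian
open Pool.Agent.H190.NK Pool.Agent.H381.NK

namespace Pool.Agent.H381.TN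

section sequences

variable {R : Type} [Ring R] {S : ShortComplex (ModuleCat.{0} R)} (hS : S.ShortExact)

include hS

/-- `Ext¹ = 0` from the lifting property -/
theorem co_one [Injective S.X₂] (X : ModuleCat.{0} R)
    (h : ∀ g : X ⟶ S.X₃, ∃ g' : X ⟶ S.X₂, g' ≫ S.g = g) : Subsingleton (Ext X S.X₁ 1) := by
  refine subsingleton_of_forall_eq 0 fun x => ?_
  obtain ⟨x₃, hx₃⟩ := Ext.covariant_sequence_exact₁ X hS x (Ext.eq_zero_of_injective _)
    (show 0 + 1 = 1 by omega)
  obtain ⟨g, rfl⟩ := (Ext.addEquiv₀ (X := X) (Y := S.X₃)).symm.surjective x₃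
  obtain ⟨g', rfl⟩ := h g
  rw [← hx₃]
  have : Ext.addEquiv₀.symm (g' ≫ S.g) = (Ext.mk₀ g').comp (Ext.mk₀ S.g) (zero_add 0) := by
    rw [Ext.mk₀_comp_mk₀]
    rfl
  rw [this]
  rw [Ext.comp_assoc_of_second_deg_zero]
  rw [hS.comp_extClass, Ext.comp_zero]

end sequences

variable {T A : Type} [Ring T] [Ring A] (ι : T →ₙ+* A)

/-- `e M` -/
def Cut (M : Type) [AddCommGroup M] [Module A M] : Type := {m : M // ι 1 • m = m}

section cut

variable {M : Type} [AddCommGroup M] [Module A M]

/-- `e M` as an additive subgroup -/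
def CutG (M : Type) [AddCommGroup M] [Module A M] : AddSubgroup M where
  carrier := {m | ι 1 • m = m}
  add_mem' := by
    intro a b ha hb
    show ι 1 • (a + b) = a + b
    rw [smul_add, show ι 1 • a = a from ha, show ι 1 • b = b from hb]
  zero_mem' := smul_zero _
  neg_mem' := by
    intro a ha
    show ι 1 • (-a) = -a
    rw [smul_neg, show ι 1 • a = a from ha]

instance : AddCommGroup (Cut ι M) := inferInstanceAs (AddCommGroup (CutG ι M))

variable {ι} in
/-- the underlying element -/
def Cut.v (m : Cut ι M) : M := m.1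

/-- constructor -/
def Cut.mk (m : M) (h : ι 1 • m = m) : Cut ι M := ⟨m, h⟩

variable {ι}

@[simp] theorem Cut.v_mk (m : M) (h : ι 1 • m = m) : (Cut.mk ι m h).v = m := rfl
theorem Cut.ext {m m' : Cut ι M} (h : m.v = m'.v) : m = m' := Subtype.ext h
@[simp] theorem Cut.v_add (m m' : Cut ι M) : (m + m').v = m.v + m'.v := rfl
@[simp] theorem Cut.v_zero : (0 : Cut ι M).v = 0 := rfl
theorem Cut.e_smul (m : Cut ι M) : ι 1 • m.v = m.v := m.2

theorem e_mul (t : T) : ι 1 * ι t = ι t := by rw [← map_mul, one_mul]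
theorem mul_e (t : T) : ι t * ι 1 = ι t := by rw [← map_mul, mul_one]

instance : Module T (Cut ι M) where
  smul t m := Cut.mk ι (ι t • m.v) (by rw [smul_smul, e_mul])
  one_smul m := Cut.ext m.e_smul
  mul_smul s t m := Cut.ext (by
    show ι (s * t) • m.v = ι s • ι t • m.v
    rw [map_mul, mul_smul])
  smul_zero t := Cut.ext (smul_zero _)
  smul_add t m m' := Cut.ext (smul_add _ _ _)
  add_smul s t m := Cut.ext (by
    show ι (s + t) • m.v = ι s • m.v + ι t • m.v
    rw [map_add, add_smul])
  zero_smul m := Cut.ext (by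
    show ι 0 • m.v = 0
    rw [map_zero, zero_smul])

@[simp] theorem Cut.v_smul (t : T) (m : Cut ι M) : (t • m).v = ι t • m.v := rfl

/-- functoriality -/
def Cut.map {M' : Type} [AddCommGroup M'] [Module A M'] (f : M →ₗ[A] M') :
    Cut ι M →ₗ[T] Cut ι M' where
  toFun m := Cut.mk ι (f m.v) (by rw [← map_smul, m.e_smul])
  map_add' m m' := Cut.ext (map_add f _ _)
  map_smul' t m := Cut.ext (map_smul f _ _)

/-- `eA × M → eM` -/
def Cut.act (w : Cut ι A) (m : M) : Cut ι M :=
  Cut.mk ι (w.v • m) (by rw [smul_smul, ← smul_eq_mul, w.e_smul])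

@[simp] theorem Cut.act_v (w : Cut ι A) (m : M) : (Cut.act w m).v = w.v • m := rfl

variable (ι) in
/-- the element `e` of `eA` -/
def Cut.e : Cut ι A := Cut.mk ι (ι 1) (by rw [smul_eq_mul, e_mul])

end cut

/-- `Hom_T(eA, N)` -/
def F (N : Type) [AddCommGroup N] [Module T N] : Type := Cut ι A →ₗ[T] N

section F

variable {ι}
variable {N : Type} [AddCommGroup N] [Module T N]

instance : AddCommGroup (F ι N) := inferInstanceAs (AddCommGroup (Cut ι A →ₗ[T] N))

/-- the underlying map -/
def F.ev (φ : F ι N) : Cut ι A →ₗ[T] N := φ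
/-- from a map -/
def F.mk (φ : Cut ι A →ₗ[T] N) : F ι N := φ

@[simp] theorem F.ev_mk (φ : Cut ι A →ₗ[T] N) : (F.mk φ).ev = φ := rfl
theorem F.ext {φ ψ : F ι N} (h : ∀ w, φ.ev w = ψ.ev w) : φ = ψ := LinearMap.ext h
@[simp] theorem F.ev_add (φ ψ : F ι N) (w : Cut ι A) : (φ + ψ).ev w = φ.ev w + ψ.ev w := rfl
@[simp] theorem F.ev_zero (w : Cut ι A) : (0 : F ι N).ev w = 0 := rfl

/-- right multiplication on `eA` -/
def rmulA (a : A) : Cut ι A →ₗ[T] Cut ι A where
  toFun w := Cut.act w a
  map_add' w w' := Cut.ext (add_mul _ _ _)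
  map_smul' t w := Cut.ext (mul_assoc _ _ _)

instance : Module A (F ι N) where
  smul a φ := F.mk (φ.ev ∘ₗ rmulA a)
  one_smul φ := F.ext fun w => by
    show φ.ev (Cut.act w 1) = φ.ev w
    congr 1
    exact Cut.ext (mul_one _)
  mul_smul a b φ := F.ext fun w => by
    show φ.ev (Cut.act w (a * b)) = φ.ev (Cut.act (Cut.act w a) b)
    congr 1
    exact Cut.ext (mul_assoc _ _ _).symm
  smul_zero a := rfl
  smul_add a φ ψ := rfl
  add_smul a b φ := F.ext fun w => by
    show φ.ev (Cut.act w (a + b)) = φ.ev (Cut.act w a) + φ.ev (Cut.act w b)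
    rw [← map_add]
    congr 1
    exact Cut.ext (mul_add _ _ _)
  zero_smul φ := F.ext fun w => by
    show φ.ev (Cut.act w 0) = 0
    rw [← map_zero φ.ev]
    congr 1
    exact Cut.ext (mul_zero _)

@[simp] theorem F.ev_smul (a : A) (φ : F ι N) (w : Cut ι A) :
    (a • φ).ev w = φ.ev (Cut.act w a) := rfl

/-- functoriality -/
def F.map {N' : Type} [AddCommGroup N'] [Module T N'] (f : N →ₗ[T] N') : F ι N →ₗ[A] F ι N' where
  toFun φ := F.mk (f ∘ₗ φ.ev)
  map_add' φ ψ := F.ext fun w => map_add f _ _
  map_smul' a φ := rfl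

@[simp] theorem F.map_ev {N' : Type} [AddCommGroup N'] [Module T N'] (f : N →ₗ[T] N')
    (φ : F ι N) (w : Cut ι A) : (F.map f φ).ev w = f (φ.ev w) := rfl

variable {M : Type} [AddCommGroup M] [Module A M]

/-- adjunction -/
def up (h : Cut ι M →ₗ[T] N) : M →ₗ[A] F ι N where
  toFun m := F.mk
    { toFun := fun w => h (Cut.act w m)
      map_add' := fun w w' => by
        rw [← map_add]
        congr 1
        exact Cut.ext (add_smul _ _ _)
      map_smul' := fun t w => by
        rw [RingHom.id_apply, ← map_smul]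
        congr 1
        exact Cut.ext (mul_smul _ _ _) }
  map_add' m m' := F.ext fun w => by
    show h (Cut.act w (m + m')) = h (Cut.act w m) + h (Cut.act w m')
    rw [← map_add]
    congr 1
    exact Cut.ext (smul_add _ _ _)
  map_smul' a m := F.ext fun w => by
    show h (Cut.act w (a • m)) = h (Cut.act (Cut.act w a) m)
    congr 1
    exact Cut.ext (smul_smul _ _ _)

@[simp] theorem up_ev (h : Cut ι M →ₗ[T] N) (m : M) (w : Cut ι A) :
    (up h m).ev w = h (Cut.act w m) := rfl

/-- adjunction, other direction -/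
def down (g : M →ₗ[A] F ι N) : Cut ι M →ₗ[T] N where
  toFun m := (g m.v).ev (Cut.e ι)
  map_add' m m' := by rw [Cut.v_add, map_add, F.ev_add]
  map_smul' t m := by
    rw [Cut.v_smul, map_smul, F.ev_smul, RingHom.id_apply, ← map_smul]
    congr 1
    exact Cut.ext (by
      show ι 1 * ι t = ι t * ι 1
      rw [e_mul, mul_e])

theorem up_down (g : M →ₗ[A] F ι N) : up (down g) = g := by
  refine LinearMap.ext fun m => F.ext fun w => ?_
  rw [up_ev]
  show (g (w.v • m)).ev (Cut.e ι) = _
  rw [map_smul, F.ev_smul]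
  congr 1
  exact Cut.ext (by
    show ι 1 * w.v = w.v
    exact w.e_smul)

/-- `F J` is injective when `J` is. -/
theorem F.injective {J : Type} [AddCommGroup J] [Module T J] (hJ : Module.Injective T J) :
    Module.Injective A (F ι J) := by
  refine ⟨fun P Q _ _ _ _ f hf g => ?_⟩
  obtain ⟨h, hh⟩ := hJ.out (Cut.map (ι := ι) f)
    (fun m m' hm => Cut.ext (hf (show f m.v = f m'.v from congrArg Cut.v hm))) (down g)
  refine ⟨up h, fun p => F.ext fun w => ?_⟩
  rw [up_ev]
  have h1 : Cut.act w (f p) = Cut.map (ι := ι) f (Cut.act w p) :=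
    Cut.ext (map_smul f _ _).symm
  rw [h1, hh, ← up_ev, up_down]

end F

section main

variable {ι}

/-- the class of modules for the dimension shift -/
def Good (T : Type) [Ring T] (C M N : Type) [AddCommGroup C] [Module T C] [AddCommGroup M]
    [Module T M] [AddCommGroup N] [Module T N] : Prop :=
  (∀ n : ℕ, Subsingleton (Ext.{0} (ModuleCat.of T C) (ModuleCat.of T N) (n + 1))) ∧
    ∀ n : ℕ, Subsingleton (Ext.{0} (ModuleCat.of T M) (ModuleCat.of T N) (n + 1))

theorem ext_F (M : Type) [AddCommGroup M] [Module A M] (i : ℕ) :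
    ∀ (N : Type) [AddCommGroup N] [Module T N], Good T (Cut ι A) (Cut ι M) N →
    Subsingleton (Ext.{0} (ModuleCat.of A M) (ModuleCat.of A (F ι N)) (i + 1)) := by
  induction i with
  | zero =>
    intro N _ _ hN
    let J : ModuleCat.{0} T := Injective.under (ModuleCat.of T N)
    let j : N →ₗ[T] J := (Injective.ι (ModuleCat.of T N)).hom
    have hj : Function.Injective j :=
      (ModuleCat.mono_iff_injective (Injective.ι (ModuleCat.of T N))).1 inferInstance
    have hJ0 : Injective (Injective.under (ModuleCat.of T N)) := inferInstance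
    have hJ1 : Injective (ModuleCat.of T J) := hJ0
    have hJ : Module.Injective T J := Module.injective_module_of_injective_object T J
    let q := (LinearMap.range j).mkQ
    have hS := shortExact_of j q hj (Submodule.mkQ_surjective _) (fun a => by
      rw [Submodule.mkQ_apply, Submodule.Quotient.mk_eq_zero]; exact ⟨a, rfl⟩) (fun b hb => by
      rw [Submodule.mkQ_apply, Submodule.Quotient.mk_eq_zero] at hb; exact hb)
    have hFJ := F.injective (ι := ι) hJ
    have : Injective (ModuleCat.of A (F ι J)) := Module.injective_object_of_injective_module A _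
    have hSF := shortExact_of (F.map (ι := ι) j) (F.map (ι := ι) q)
      (fun φ ψ h => F.ext fun w => hj (congrArg (fun χ : F ι J => χ.ev w) h))
      (fun φ => by
        obtain ⟨g, hg⟩ := co_lift hS (ModuleCat.of T (Cut ι A)) (hN.1 0) (ModuleCat.ofHom φ.ev)
        exact ⟨F.mk g.hom, F.ext fun w => LinearMap.congr_fun (congrArg ModuleCat.Hom.hom hg) w⟩)
      (fun φ => F.ext fun w => by
        show q (j (φ.ev w)) = 0
        rw [Submodule.mkQ_apply, Submodule.Quotient.mk_eq_zero]
        exact ⟨_, rfl⟩)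
      (fun φ h => by
        have h1 : ∀ w, φ.ev w ∈ LinearMap.range j := by
          intro w
          have h2 : q (φ.ev w) = 0 := congrArg (fun χ : F ι _ => χ.ev w) h
          rwa [Submodule.mkQ_apply, Submodule.Quotient.mk_eq_zero] at h2
        refine ⟨F.mk ((LinearEquiv.ofInjective j hj).symm.toLinearMap ∘ₗ
          (φ.ev.codRestrict (LinearMap.range j) h1)), F.ext fun w => ?_⟩
        have h3 := (LinearEquiv.ofInjective j hj).apply_symm_apply
          ((φ.ev.codRestrict (LinearMap.range j) h1) w)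
        exact congrArg Subtype.val h3)
    refine co_one hSF _ fun g => ?_
    obtain ⟨g', hg'⟩ := co_lift hS (ModuleCat.of T (Cut ι M)) (hN.2 0)
      (ModuleCat.ofHom (down g.hom))
    refine ⟨ModuleCat.ofHom (up g'.hom), ModuleCat.hom_ext (LinearMap.ext fun m =>
      F.ext fun w => ?_)⟩
    have h4 := LinearMap.congr_fun (congrArg ModuleCat.Hom.hom hg') (Cut.act w m)
    have h5 : q (g'.hom (Cut.act w m)) = (up (down g.hom) m).ev w := h4
    rw [up_down] at h5
    exact h5
  | succ i ih =>
    intro N _ _ hN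
    let J : ModuleCat.{0} T := Injective.under (ModuleCat.of T N)
    let j : N →ₗ[T] J := (Injective.ι (ModuleCat.of T N)).hom
    have hj : Function.Injective j :=
      (ModuleCat.mono_iff_injective (Injective.ι (ModuleCat.of T N))).1 inferInstance
    have hJ0 : Injective (Injective.under (ModuleCat.of T N)) := inferInstance
    have hJ1 : Injective (ModuleCat.of T J) := hJ0
    have hJ : Module.Injective T J := Module.injective_module_of_injective_object T J
    let q := (LinearMap.range j).mkQ
    have hS := shortExact_of j q hj (Submodule.mkQ_surjective _) (fun a => by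
      rw [Submodule.mkQ_apply, Submodule.Quotient.mk_eq_zero]; exact ⟨a, rfl⟩) (fun b hb => by
      rw [Submodule.mkQ_apply, Submodule.Quotient.mk_eq_zero] at hb; exact hb)
    have hFJ := F.injective (ι := ι) hJ
    have : Injective (ModuleCat.of A (F ι J)) := Module.injective_object_of_injective_module A _
    have hSF := shortExact_of (F.map (ι := ι) j) (F.map (ι := ι) q)
      (fun φ ψ h => F.ext fun w => hj (congrArg (fun χ : F ι J => χ.ev w) h))
      (fun φ => by
        obtain ⟨g, hg⟩ := co_lift hS (ModuleCat.of T (Cut ι A)) (hN.1 0) (ModuleCat.ofHom φ.ev)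
        exact ⟨F.mk g.hom, F.ext fun w => LinearMap.congr_fun (congrArg ModuleCat.Hom.hom hg) w⟩)
      (fun φ => F.ext fun w => by
        show q (j (φ.ev w)) = 0
        rw [Submodule.mkQ_apply, Submodule.Quotient.mk_eq_zero]
        exact ⟨_, rfl⟩)
      (fun φ h => by
        have h1 : ∀ w, φ.ev w ∈ LinearMap.range j := by
          intro w
          have h2 : q (φ.ev w) = 0 := congrArg (fun χ : F ι _ => χ.ev w) h
          rwa [Submodule.mkQ_apply, Submodule.Quotient.mk_eq_zero] at h2
        refine ⟨F.mk ((LinearEquiv.ofInjective j hj).symm.toLinearMap ∘ₗ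
          (φ.ev.codRestrict (LinearMap.range j) h1)), F.ext fun w => ?_⟩
        have h3 := (LinearEquiv.ofInjective j hj).apply_symm_apply
          ((φ.ev.codRestrict (LinearMap.range j) h1) w)
        exact congrArg Subtype.val h3)
    refine co_shift' hSF _ (i + 1) (ih _ ⟨fun n => ?_, fun n => ?_⟩)
    · exact co_shift hS _ n (hN.1 (n + 1))
    · exact co_shift hS _ n (hN.2 (n + 1))

end main

end Pool.Agent.H381.TN
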