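import Pool.Agent.H381.TN.Mods

/-!
# Vanishing of `Ext` over the matrix algebra
-/

set_option autoImplicit false
set_option linter.unusedSectionVars false
set_option linter.unusedVariables false
set_option linter.unusedSimpArgs false

open CategoryTheory CategoryTheory.Abelian
open Pool.Agent.H190.NK Pool.Agent.H381.NK Pool.Agent.H379.GS

namespace Pool.Agent.H381.TN

theorem ext_prod {R : Type} [Ring R] {M N : Type} [AddCommGroup M] [Module R M] [AddCommGroup N]
    [Module R N] (Y : ModuleCat.{0} R) (n : ℕ) (hM : Subsingleton (Ext (ModuleCat.of R M) Y n))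
    (hN : Subsingleton (Ext (ModuleCat.of R N) Y n)) :
    Subsingleton (Ext (ModuleCat.of R (M × N)) Y n) := by
  refine subsingleton_of_forall_eq 0 fun x => ?_
  have h0 : ModuleCat.ofHom (LinearMap.fst R M N) ≫ ModuleCat.ofHom (LinearMap.inl R M N) +
      ModuleCat.ofHom (LinearMap.snd R M N) ≫ ModuleCat.ofHom (LinearMap.inr R M N) =
      𝟙 (ModuleCat.of R (M × N)) := by
    refine ModuleCat.hom_ext (LinearMap.ext fun v => ?_)
    show ((v.1, (0 : N)) : M × N) + ((0 : M), v.2) = v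
    rw [Prod.mk_add_mk, add_zero, zero_add]
  have h1 : x = (Ext.mk₀ (ModuleCat.ofHom (LinearMap.fst R M N) ≫
      ModuleCat.ofHom (LinearMap.inl R M N) +
      ModuleCat.ofHom (LinearMap.snd R M N) ≫ ModuleCat.ofHom (LinearMap.inr R M N))).comp x
      (zero_add n) := by
    rw [h0, Ext.mk₀_id_comp]
  rw [h1, Ext.mk₀_add, Ext.add_comp, ← Ext.mk₀_comp_mk₀_assoc, ← Ext.mk₀_comp_mk₀_assoc,
    Subsingleton.elim ((Ext.mk₀ (ModuleCat.ofHom (LinearMap.inl R M N))).comp x (zero_add n)) 0,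
    Subsingleton.elim ((Ext.mk₀ (ModuleCat.ofHom (LinearMap.inr R M N))).comp x (zero_add n)) 0,
    Ext.comp_zero, Ext.comp_zero, add_zero]

/-- retracts, linear version -/
theorem ext_retr {R : Type} [Ring R] {M N : Type} [AddCommGroup M] [Module R M] [AddCommGroup N]
    [Module R N] (i : M →ₗ[R] N) (r : N →ₗ[R] M) (h : ∀ m, r (i m) = m) (Y : ModuleCat.{0} R)
    (n : ℕ) (hN : Subsingleton (Ext (ModuleCat.of R N) Y n)) :
    Subsingleton (Ext (ModuleCat.of R M) Y n) :=
  ext_retract (ModuleCat.ofHom i) (ModuleCat.ofHom r)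
    (ModuleCat.hom_ext (LinearMap.ext h)) Y n hN

/-- retracts, linear version -/
theorem ext_retr' {R : Type} [Ring R] {M N : Type} [AddCommGroup M] [Module R M] [AddCommGroup N]
    [Module R N] (i : M →ₗ[R] N) (r : N →ₗ[R] M) (h : ∀ m, r (i m) = m) (Y : ModuleCat.{0} R)
    (n : ℕ) (hN : Subsingleton (Ext Y (ModuleCat.of R N) n)) :
    Subsingleton (Ext Y (ModuleCat.of R M) n) :=
  ext_retract' (ModuleCat.ofHom i) (ModuleCat.ofHom r)
    (ModuleCat.hom_ext (LinearMap.ext h)) Y n hN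

namespace RA

variable {K : Type} [Field K] {L : Type} [Ring L] [Algebra K L] {X : Type} [AddCommGroup X]
  [Module K X] [Module L X] [IsScalarTower K L X]

variable (K L X) in
/-- the trivial extension in the algebra -/
def iota : T K L →ₙ+* RA K L X where
  toFun t := mk t.fst (DA.ev t.snd) 0 (DA.ev t.snd) t.fst 0 0 0 0
  map_zero' := rfl
  map_add' s t := by
    refine ext' ?_ ?_ ?_ ?_ ?_ ?_ ?_ ?_ ?_ <;> simp
  map_mul' s t := by
    refine ext' ?_ ?_ ?_ ?_ ?_ ?_ ?_ ?_ ?_ <;> simp [TrivSqZeroExt.snd_mul]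

theorem iota_apply (t : T K L) :
    iota K L X t = mk t.fst (DA.ev t.snd) 0 (DA.ev t.snd) t.fst 0 0 0 0 := rfl

theorem iota_one : iota K L X 1 = e0 := rfl

variable [Module (T K L) X] (hX : ∀ (t : T K L) (x : X), t • x = t.fst • x)

include hX in
theorem inr_smul (f : DA K L) (x : X) : (TrivSqZeroExt.inr f : T K L) • x = 0 := by
  rw [hX]; simp

include hX in
theorem inl_smul (l : L) (x : X) : (TrivSqZeroExt.inl l : T K L) • x = l • x := by
  rw [hX]; simp

include hX in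
theorem cut_retr : ∃ (i : Cut (iota K L X) (RA K L X) →ₗ[T K L] (T K L × T K L × X))
    (r : (T K L × T K L × X) →ₗ[T K L] Cut (iota K L X) (RA K L X)), ∀ w, r (i w) = w := by
  refine ⟨{ toFun := fun w => (TrivSqZeroExt.inl w.v.p11 + TrivSqZeroExt.inr (DA.mk w.v.p21),
              TrivSqZeroExt.inl w.v.p22 + TrivSqZeroExt.inr (DA.mk w.v.p12), w.v.p13)
            map_add' := fun w w' => ?_
            map_smul' := fun t w => ?_ },
          { toFun := fun v => Cut.mk (iota K L X) (RA.mk v.1.fst (DA.ev v.2.1.snd) v.2.2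
              (DA.ev v.1.snd) v.2.1.fst 0 0 0 0) ?_
            map_add' := fun v v' => ?_
            map_smul' := fun t v => ?_ }, fun w => ?_⟩
  · refine Prod.ext ?_ (Prod.ext ?_ rfl)
    · refine TrivSqZeroExt.ext ?_ ?_
      · simp
      · refine DA.ext fun x => ?_
        simp
    · refine TrivSqZeroExt.ext ?_ ?_
      · simp
      · refine DA.ext fun x => ?_
        simp
  · refine Prod.ext ?_ (Prod.ext ?_ ?_)
    · refine TrivSqZeroExt.ext ?_ ?_
      · simp [iota_apply]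
      · refine DA.ext fun x => ?_
        simp [iota_apply]
    · refine TrivSqZeroExt.ext ?_ ?_
      · simp [iota_apply]
      · refine DA.ext fun x => ?_
        simp [iota_apply]
    · simp [iota_apply, hX]
  · rw [iota_one]
    refine ext' ?_ ?_ ?_ ?_ ?_ ?_ ?_ ?_ ?_ <;> simp [e0]
  · refine Cut.ext (ext' ?_ ?_ ?_ ?_ ?_ ?_ ?_ ?_ ?_) <;> simp
  · refine Cut.ext (ext' ?_ ?_ ?_ ?_ ?_ ?_ ?_ ?_ ?_) <;>
      simp [iota_apply, TrivSqZeroExt.snd_mul, hX]
  · have h1 := w.e_smul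
    rw [iota_one, smul_eq_mul] at h1
    refine Cut.ext ?_
    refine Eq.trans ?_ h1
    refine ext' ?_ ?_ ?_ ?_ ?_ ?_ ?_ ?_ ?_ <;> simp [e0]

include hX in
theorem good (M : Type) [AddCommGroup M] [Module (RA K L X) M]
    (hE : ∀ n : ℕ, Subsingleton (Ext.{0} (ModuleCat.of (T K L) X) (ModuleCat.of (T K L) X) (n + 1)))
    (hM : ∃ (i : Cut (iota K L X) M →ₗ[T K L] X) (r : X →ₗ[T K L] Cut (iota K L X) M),
      ∀ w, r (i w) = w) :
    Good (T K L) (Cut (iota K L X) (RA K L X)) (Cut (iota K L X) M) X := by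
  refine ⟨fun n => ?_, fun n => ?_⟩
  · obtain ⟨i, r, h⟩ := cut_retr (K := K) (L := L) (X := X) hX
    have hP : Projective (ModuleCat.of (T K L) (T K L)) :=
      (IsProjective.iff_projective _).mp inferInstance
    have hT : Subsingleton (Ext.{0} (ModuleCat.of (T K L) (T K L)) (ModuleCat.of (T K L) X)
        (n + 1)) := subsingleton_of_forall_eq 0 fun x => Ext.eq_zero_of_projective x
    exact ext_retr i r h _ _ (ext_prod _ _ hT (ext_prod _ _ hT (hE n)))
  · obtain ⟨i, r, h⟩ := hM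
    exact ext_retr i r h _ _ (hE n)

include hX in
theorem retr_Ib : ∃ (i : Cut (iota K L X) (Ib K L X) →ₗ[T K L] X)
    (r : X →ₗ[T K L] Cut (iota K L X) (Ib K L X)), ∀ w, r (i w) = w := by
  refine ⟨{ toFun := fun w => w.v.x
            map_add' := fun w w' => rfl
            map_smul' := fun t w => by
              rw [RingHom.id_apply, hX]
              rfl },
          { toFun := fun x => Cut.mk _ (Ib.mk x 0 0) ?_
            map_add' := fun v v' => ?_
            map_smul' := fun t v => ?_ }, fun w => ?_⟩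
  · rw [iota_one]
    refine Ib.ext ?_ ?_ ?_ <;> simp [e0]
  · refine Cut.ext (Ib.ext ?_ ?_ ?_) <;> simp
  · refine Cut.ext (Ib.ext ?_ ?_ ?_) <;> simp [iota_apply, hX]
  · have h1 := w.e_smul
    rw [iota_one] at h1
    refine Cut.ext ?_
    refine Eq.trans ?_ h1
    refine Ib.ext ?_ ?_ ?_
    · show w.v.x = (e0 • w.v).x
      simp [e0]
    · simp [e0]
    · simp [e0]

theorem retr_Iw : ∃ (i : Cut (iota K L X) (Iw K L X) →ₗ[T K L] X)
    (r : X →ₗ[T K L] Cut (iota K L X) (Iw K L X)), ∀ w, r (i w) = w := by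
  refine ⟨0, 0, fun w => ?_⟩
  have h1 := w.e_smul
  rw [iota_one] at h1
  refine Cut.ext ?_
  refine Eq.trans ?_ h1
  refine Iw.ext fun u => ?_
  simp [e0]

/-! ### The summands of `F X` -/

/-- the column `(0, X, 0, 0)` -/
def Lm (_K _L X : Type) : Type := X

namespace Lm

instance : AddCommGroup (Lm K L X) := inferInstanceAs (AddCommGroup X)

/-- entry -/
def x (v : Lm K L X) : X := v
/-- constructor -/
def mk (x : X) : Lm K L X := x
@[simp] theorem x_mk (x : X) : (mk x : Lm K L X).x = x := rfl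
@[simp] theorem x_add (v w : Lm K L X) : (v + w).x = v.x + w.x := rfl
@[simp] theorem x_zero : (0 : Lm K L X).x = 0 := rfl
theorem ext {v w : Lm K L X} (h : v.x = w.x) : v = w := h

instance : SMul (RA K L X) (Lm K L X) := ⟨fun a v => mk (a.p22 • v.x)⟩

@[simp] theorem x_smul (a : RA K L X) (v : Lm K L X) : (a • v).x = a.p22 • v.x := rfl

instance : Module (RA K L X) (Lm K L X) where
  one_smul v := by refine ext ?_; simp
  mul_smul a b v := by refine ext ?_; simp [mul_smul]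
  smul_zero a := by refine ext ?_; simp
  smul_add a v w := by refine ext ?_; simp
  add_smul a b v := by refine ext ?_; simp [add_smul]
  zero_smul v := by refine ext ?_; simp

end Lm

/-- elements of `e A` -/
def w1 : Cut (iota K L X) (RA K L X) := Cut.mk _ (u11 1) (by
  rw [iota_one, smul_eq_mul]
  refine ext' ?_ ?_ ?_ ?_ ?_ ?_ ?_ ?_ ?_ <;> simp [e0, u11_def])

/-- elements of `e A` -/
def w2 : Cut (iota K L X) (RA K L X) := Cut.mk _ (u22 1) (by
  rw [iota_one, smul_eq_mul]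
  refine ext' ?_ ?_ ?_ ?_ ?_ ?_ ?_ ?_ ?_ <;> simp [e0, u22_def])

/-- elements of `e A` -/
def wx (x : X) : Cut (iota K L X) (RA K L X) := Cut.mk _ (u13 x) (by
  rw [iota_one, smul_eq_mul]
  refine ext' ?_ ?_ ?_ ?_ ?_ ?_ ?_ ?_ ?_ <;> simp [e0, u13_def])

theorem act_w1 (a : RA K L X) : Cut.act (w1 : Cut (iota K L X) (RA K L X)) a =
    (TrivSqZeroExt.inl a.p11 : T K L) • w1 +
    (TrivSqZeroExt.inr (DA.mk a.p12) : T K L) • w2 + wx a.p13 := by
  refine Cut.ext (ext' ?_ ?_ ?_ ?_ ?_ ?_ ?_ ?_ ?_) <;>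
    simp [w1, w2, wx, u11_def, u22_def, u13_def, iota_apply]

theorem act_w2 (a : RA K L X) : Cut.act (w2 : Cut (iota K L X) (RA K L X)) a =
    (TrivSqZeroExt.inr (DA.mk a.p21) : T K L) • w1 +
    (TrivSqZeroExt.inl a.p22 : T K L) • w2 := by
  refine Cut.ext (ext' ?_ ?_ ?_ ?_ ?_ ?_ ?_ ?_ ?_) <;>
    simp [w1, w2, wx, u11_def, u22_def, u13_def, iota_apply]

theorem act_wx (a : RA K L X) (x : X) : Cut.act (wx x : Cut (iota K L X) (RA K L X)) a =
    (TrivSqZeroExt.inr (DA.mk (xg x a.p32)) : T K L) • w2 + wx (a.p33 x) := by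
  refine Cut.ext (ext' ?_ ?_ ?_ ?_ ?_ ?_ ?_ ?_ ?_) <;>
    simp [w1, w2, wx, u11_def, u22_def, u13_def, iota_apply]

theorem wx_add (x y : X) : (wx (x + y) : Cut (iota K L X) (RA K L X)) = wx x + wx y :=
  Cut.ext (map_add u13 x y)

theorem wx_smul (l : L) (x : X) : (wx (l • x) : Cut (iota K L X) (RA K L X)) =
    (TrivSqZeroExt.inl l : T K L) • wx x := by
  refine Cut.ext (ext' ?_ ?_ ?_ ?_ ?_ ?_ ?_ ?_ ?_) <;>
    simp [w1, w2, wx, u11_def, u22_def, u13_def, iota_apply]

include hX in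
theorem retr_Lm : ∃ (i : Lm K L X →ₗ[RA K L X] F (iota K L X) X)
    (r : F (iota K L X) X →ₗ[RA K L X] Lm K L X), ∀ w, r (i w) = w := by
  refine ⟨{ toFun := fun x => F.mk
              { toFun := fun w => w.v.p22 • x.x
                map_add' := fun w w' => by rw [Cut.v_add, p22_add, add_smul]
                map_smul' := fun t w => by
                  rw [RingHom.id_apply, hX, smul_smul]
                  rfl }
            map_add' := fun x y => F.ext fun w => by
              show w.v.p22 • (x + y).x = w.v.p22 • x.x + w.v.p22 • y.x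
              rw [Lm.x_add, smul_add]
            map_smul' := fun a x => F.ext fun w => by
              show w.v.p22 • (a • x).x = (Cut.act w a).v.p22 • x.x
              rw [Lm.x_smul, smul_smul]
              rfl },
          { toFun := fun φ => Lm.mk (φ.ev w2)
            map_add' := fun φ ψ => rfl
            map_smul' := fun a φ => ?_ }, fun w => ?_⟩
  · refine Lm.ext ?_
    show φ.ev (Cut.act w2 a) = a.p22 • φ.ev w2
    rw [act_w2, map_add, map_smul, map_smul, inr_smul hX, inl_smul hX, zero_add]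
  · refine Lm.ext ?_
    show (1 : L) • w.x = w.x
    rw [one_smul]

theorem col3 (c : Col (e3 : RA K L X)) : c.1.p11 = 0 ∧ c.1.p12 = 0 ∧ c.1.p21 = 0 ∧
    c.1.p22 = 0 ∧ c.1.p32 = 0 ∧ c.1.p34 = 0 ∧ c.1.p44 = 0 := by
  have h := mem_Col.1 c.2
  refine ⟨?_, ?_, ?_, ?_, ?_, ?_, ?_⟩
  · rw [← h]; simp [e3]
  · rw [← h]; refine LinearMap.ext fun u => ?_; simp [e3]
  · rw [← h]; refine LinearMap.ext fun u => ?_; simp [e3]
  · rw [← h]; simp [e3]
  · rw [← h]; refine LinearMap.ext fun u => ?_; simp [e3]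
  · rw [← h]; refine LinearMap.ext fun u => ?_; simp [e3]
  · rw [← h]; simp [e3]

theorem mem_col3 (x : X) (u : EX L X) : RA.mk 0 0 x 0 0 0 u 0 0 ∈ Col (e3 : RA K L X) := by
  rw [mem_Col]
  refine ext' ?_ ?_ ?_ ?_ ?_ ?_ ?_ ?_ ?_ <;> simp [e3]

/-- the map to the column -/
def toC3 (φ : F (iota K L X) X) : Col (e3 : RA K L X) := ⟨RA.mk 0 0 (φ.ev w1) 0 0 0
  { toFun := fun x => φ.ev (wx x)
    map_add' := fun x y => by rw [wx_add, map_add]
    map_smul' := fun l x => by
      rw [wx_smul, map_smul, inl_smul hX, RingHom.id_apply] } 0 0, mem_col3 _ _⟩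

theorem toC3_p13 (φ : F (iota K L X) X) : (toC3 hX φ).1.p13 = φ.ev w1 := rfl
theorem toC3_p33 (φ : F (iota K L X) X) (x : X) : (toC3 hX φ).1.p33 x = φ.ev (wx x) := rfl

theorem ext_col3 {c d : Col (e3 : RA K L X)} (h1 : c.1.p13 = d.1.p13)
    (h2 : ∀ x, c.1.p33 x = d.1.p33 x) : c = d := by
  obtain ⟨h11, h12, h21, h22, h32, h34, h44⟩ := col3 c
  obtain ⟨k11, k12, k21, k22, k32, k34, k44⟩ := col3 d
  refine Subtype.ext (ext' ?_ ?_ h1 ?_ ?_ ?_ h2 ?_ ?_)
  · rw [h11, k11]
  · rw [h12, k12]; exact fun _ => rfl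
  · rw [h21, k21]; exact fun _ => rfl
  · rw [h22, k22]
  · rw [h32, k32]; exact fun _ => rfl
  · rw [h34, k34]; exact fun _ => rfl
  · rw [h44, k44]; exact fun _ => rfl

/-- the map from the column -/
def ofC3 (c : Col (e3 : RA K L X)) : F (iota K L X) X := F.mk
  { toFun := fun w => w.v.p11 • c.1.p13 + c.1.p33 w.v.p13
    map_add' := fun w w' => by
      simp [add_smul]
      abel
    map_smul' := fun t w => by
      simp [hX, iota_apply, smul_smul] }

theorem ofC3_ev (c : Col (e3 : RA K L X)) (w : Cut (iota K L X) (RA K L X)) :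
    (ofC3 hX c).ev w = w.v.p11 • c.1.p13 + c.1.p33 w.v.p13 := rfl

include hX in
theorem retr_col3 : ∃ (i : Col (e3 : RA K L X) →ₗ[RA K L X] F (iota K L X) X)
    (r : F (iota K L X) X →ₗ[RA K L X] Col (e3 : RA K L X)), ∀ w, r (i w) = w := by
  refine ⟨{ toFun := ofC3 hX
            map_add' := fun c d => F.ext fun w => by
              rw [F.ev_add, ofC3_ev, ofC3_ev, ofC3_ev]
              show w.v.p11 • (c.1.p13 + d.1.p13) + (c.1.p33 + d.1.p33) w.v.p13 =
                (w.v.p11 • c.1.p13 + c.1.p33 w.v.p13) + (w.v.p11 • d.1.p13 + d.1.p33 w.v.p13)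
              rw [smul_add, LinearMap.add_apply]
              abel
            map_smul' := fun a c => F.ext fun w => by
              rw [RingHom.id_apply, F.ev_smul, ofC3_ev, ofC3_ev]
              show w.v.p11 • (a.p11 • c.1.p13 + c.1.p33 a.p13) + c.1.p33 (a.p33 w.v.p13) =
                (w.v.p11 * a.p11) • c.1.p13 + c.1.p33 (w.v.p11 • a.p13 + a.p33 w.v.p13)
              rw [smul_add, mul_smul, map_add, map_smul, add_assoc] },
          { toFun := toC3 hX
            map_add' := fun φ ψ => ext_col3 ?_ fun x => ?_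
            map_smul' := fun a φ => ext_col3 ?_ fun x => ?_ }, fun c => ext_col3 ?_ fun x => ?_⟩
  · rfl
  · rfl
  · show φ.ev (Cut.act w1 a) = a.p11 • φ.ev w1 + φ.ev (wx a.p13)
    rw [act_w1, map_add, map_add, map_smul, map_smul, inr_smul hX, inl_smul hX, add_zero]
  · show φ.ev (Cut.act (wx x) a) = φ.ev (wx (a.p33 x))
    rw [act_wx, map_add, map_smul, inr_smul hX, zero_add]
  · show (1 : L) • c.1.p13 + c.1.p33 0 = c.1.p13
    rw [map_zero, one_smul, add_zero]
  · show (0 : L) • c.1.p13 + c.1.p33 x = c.1.p33 x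
    rw [zero_smul, zero_add]

/-! ### The column `A e₄` -/

theorem col4 (c : Col (e4 : RA K L X)) : c.1.p11 = 0 ∧ c.1.p12 = 0 ∧ c.1.p13 = 0 ∧
    c.1.p21 = 0 ∧ c.1.p22 = 0 ∧ c.1.p32 = 0 ∧ c.1.p33 = 0 := by
  have h := mem_Col.1 c.2
  refine ⟨?_, ?_, ?_, ?_, ?_, ?_, ?_⟩
  · rw [← h]; simp [e4]
  · rw [← h]; refine LinearMap.ext fun u => ?_; simp [e4]
  · rw [← h]; simp [e4]
  · rw [← h]; refine LinearMap.ext fun u => ?_; simp [e4]
  · rw [← h]; simp [e4]
  · rw [← h]; refine LinearMap.ext fun u => ?_; simp [e4]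
  · rw [← h]; simp [e4]

theorem mem_col4 (g : EX L X →ₗ[K] K) (u : EX L X) :
    RA.mk 0 0 0 0 0 0 0 g u ∈ Col (e4 : RA K L X) := by
  rw [mem_Col]
  refine ext' ?_ ?_ ?_ ?_ ?_ ?_ ?_ ?_ ?_ <;> simp [e4]

theorem ext_col4 {c d : Col (e4 : RA K L X)} (h1 : ∀ u, c.1.p34 u = d.1.p34 u)
    (h2 : ∀ x, c.1.p44 x = d.1.p44 x) : c = d := by
  obtain ⟨h11, h12, h13, h21, h22, h32, h33⟩ := col4 c
  obtain ⟨k11, k12, k13, k21, k22, k32, k33⟩ := col4 d
  refine Subtype.ext (ext' ?_ ?_ ?_ ?_ ?_ ?_ ?_ h1 h2)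
  · rw [h11, k11]
  · rw [h12, k12]; exact fun _ => rfl
  · rw [h13, k13]
  · rw [h21, k21]; exact fun _ => rfl
  · rw [h22, k22]
  · rw [h32, k32]; exact fun _ => rfl
  · rw [h33, k33]; exact fun _ => rfl

/-- `A e₄ → D(e₃ A)` -/
def jw : Col (e4 : RA K L X) →ₗ[RA K L X] Ib K L X where
  toFun c := Ib.mk 0 c.1.p34 c.1.p44
  map_add' c d := by refine Ib.ext ?_ ?_ ?_ <;> simp
  map_smul' a c := by
    refine Ib.ext ?_ ?_ ?_
    · simp
    · intro u
      show (a * c.1).p34 u = _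
      simp
    · intro x
      show (a * c.1).p44 x = _
      simp

/-- `D(e₃ A) → (0, X, 0, 0)` -/
def qw : Ib K L X →ₗ[RA K L X] Lm K L X where
  toFun v := Lm.mk v.x
  map_add' v w := rfl
  map_smul' a v := rfl

theorem shortExact_w : (ShortComplex.mk (ModuleCat.ofHom (jw (K := K) (L := L) (X := X)))
    (ModuleCat.ofHom qw) (by ext a; rfl)).ShortExact :=
  shortExact_of jw qw
    (fun c d h => ext_col4 (fun u => congrArg (fun v : Ib K L X => v.g u) h)
      (fun x => congrArg (fun v : Ib K L X => v.b x) h))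
    (fun x => ⟨Ib.mk x.x 0 0, rfl⟩)
    (fun c => rfl)
    (fun v h => ⟨⟨RA.mk 0 0 0 0 0 0 0 v.g v.b, mem_col4 _ _⟩,
      Ib.ext (show (0 : X) = v.x from h.symm) (fun _ => rfl) (fun _ => rfl)⟩)

/-- endomorphisms of `D(e₃ A)` -/
def endIb (e : EX L X) : Ib K L X →ₗ[RA K L X] Ib K L X where
  toFun v := Ib.mk (e v.x) (du v.g e) (e ∘ₗ v.b)
  map_add' v w := by refine Ib.ext ?_ ?_ ?_ <;> simp
  map_smul' a v := by
    refine Ib.ext ?_ ?_ ?_ <;> simp [LinearMap.comp_assoc]

theorem hom_Ib_Lm (h : Ib K L X →ₗ[RA K L X] Lm K L X) :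
    ∃ e : EX L X, ∀ v, h v = qw (endIb e v) := by
  refine ⟨{ toFun := fun x => (h (Ib.mk x 0 0 : Ib K L X)).x
            map_add' := fun x y => ?_
            map_smul' := fun l x => ?_ }, fun v => ?_⟩
  · rw [← Lm.x_add, ← map_add]
    congr 2
    refine Ib.ext ?_ ?_ ?_ <;> simp
  · have h1 : (Ib.mk (l • x) 0 0 : Ib K L X) =
        (u22 l : RA K L X) • (Ib.mk x 0 0 : Ib K L X) := by
      refine Ib.ext ?_ ?_ ?_ <;> simp [u22_def]
    rw [h1, map_smul, Lm.x_smul]
    rfl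
  · refine Lm.ext ?_
    show (h v).x = (h (Ib.mk v.x 0 0 : Ib K L X)).x
    have h1 : (Ib.mk v.x 0 0 : Ib K L X) = (e0 : RA K L X) • v := by
      refine Ib.ext ?_ ?_ ?_ <;> simp [e0]
    rw [h1, map_smul, Lm.x_smul]
    simp [e0]

theorem hom_Iw_Lm (h : Iw K L X →ₗ[RA K L X] Lm K L X) (v : Iw K L X) : h v = 0 := by
  have h1 : (e0 : RA K L X) • h v = h v := by
    refine Lm.ext ?_
    simp [e0]
  rw [← h1, ← map_smul]
  have h2 : (e0 : RA K L X) • v = 0 := by
    refine Iw.ext fun u => ?_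
    simp [e0]
  rw [h2, map_zero]

section main

variable [Module.Finite K L] [Module.Finite K X]
  (hE : ∀ n : ℕ, Subsingleton (Ext.{0} (ModuleCat.of (T K L) X) (ModuleCat.of (T K L) X) (n + 1)))

include hX hE

theorem ext_col4_zero {M : Type} [AddCommGroup M] [Module (RA K L X) M]
    (hM : ∃ (i : Cut (iota K L X) M →ₗ[T K L] X) (r : X →ₗ[T K L] Cut (iota K L X) M),
      ∀ w, r (i w) = w)
    (hL : ∀ h : M →ₗ[RA K L X] Lm K L X, ∃ h' : M →ₗ[RA K L X] Ib K L X, ∀ m, qw (h' m) = h m)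
    (n : ℕ) : Subsingleton (Ext.{0} (ModuleCat.of (RA K L X) M)
      (ModuleCat.of (RA K L X) (Col (e4 : RA K L X))) (n + 1)) := by
  have hI : Module.Injective (RA K L X) (Ib K L X) := Ib.coRep.injective
  have : Injective (ModuleCat.of (RA K L X) (Ib K L X)) :=
    Module.injective_object_of_injective_module _ _
  cases n with
  | zero =>
    refine co_one shortExact_w _ fun g => ?_
    obtain ⟨h', hh'⟩ := hL g.hom
    exact ⟨ModuleCat.ofHom h', ModuleCat.hom_ext (LinearMap.ext hh')⟩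
  | succ n =>
    obtain ⟨i, r, h⟩ := retr_Lm (K := K) (L := L) hX
    exact co_shift' shortExact_w _ (n + 1)
      (ext_retr' i r h _ _ (ext_F M n X (good hX M hE hM)))

theorem ext_all {M : Type} [AddCommGroup M] [Module (RA K L X) M]
    (hM : ∃ (i : Cut (iota K L X) M →ₗ[T K L] X) (r : X →ₗ[T K L] Cut (iota K L X) M),
      ∀ w, r (i w) = w)
    (hL : ∀ h : M →ₗ[RA K L X] Lm K L X, ∃ h' : M →ₗ[RA K L X] Ib K L X, ∀ m, qw (h' m) = h m)
    (n : ℕ) : Subsingleton (Ext.{0} (ModuleCat.of (RA K L X) M)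
      (ModuleCat.of (RA K L X) (RA K L X)) (n + 1)) := by
  have h0 : Subsingleton (Ext.{0} (ModuleCat.of (RA K L X) M)
      (ModuleCat.of (RA K L X) (Col (e0 : RA K L X))) (n + 1)) := by
    have hI : Module.Injective (RA K L X) (Col (e0 : RA K L X)) := coRep0.injective
    have : Injective (ModuleCat.of (RA K L X) (Col (e0 : RA K L X))) :=
      Module.injective_object_of_injective_module _ _
    exact subsingleton_of_forall_eq 0 fun x => Ext.eq_zero_of_injective x
  have h3 : Subsingleton (Ext.{0} (ModuleCat.of (RA K L X) M)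
      (ModuleCat.of (RA K L X) (Col (e3 : RA K L X))) (n + 1)) := by
    obtain ⟨i, r, h⟩ := retr_col3 (K := K) (L := L) hX
    exact ext_retr' i r h _ _ (ext_F M n X (good hX M hE hM))
  have h4 := ext_col4_zero hX hE hM hL n
  have key : ∀ a : RA K L X, (toCol e0 e0_idem a : RA K L X) + (toCol e3 e3_idem a : RA K L X) +
      (toCol e4 e4_idem a : RA K L X) = a := by
    intro a
    show a * e0 + a * e3 + a * e4 = a
    rw [← mul_add, ← mul_add, sum_e, mul_one]
  refine subsingleton_of_forall_eq 0 fun x => ?_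
  have e1 : ModuleCat.ofHom (toCol (e0 : RA K L X) e0_idem) ≫ ModuleCat.ofHom (Col e0).subtype +
      ModuleCat.ofHom (toCol (e3 : RA K L X) e3_idem) ≫ ModuleCat.ofHom (Col e3).subtype +
      ModuleCat.ofHom (toCol (e4 : RA K L X) e4_idem) ≫ ModuleCat.ofHom (Col e4).subtype =
      𝟙 (ModuleCat.of (RA K L X) (RA K L X)) := ModuleCat.hom_ext (LinearMap.ext key)
  rw [← Ext.comp_mk₀_id x, ← e1, Ext.mk₀_add, Ext.mk₀_add, Ext.comp_add, Ext.comp_add,
    ← Ext.mk₀_comp_mk₀, ← Ext.mk₀_comp_mk₀, ← Ext.mk₀_comp_mk₀,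
    ← Ext.comp_assoc_of_third_deg_zero, ← Ext.comp_assoc_of_third_deg_zero,
    ← Ext.comp_assoc_of_third_deg_zero,
    Subsingleton.elim (x.comp (Ext.mk₀ (ModuleCat.ofHom (toCol (e0 : RA K L X) e0_idem)))
      (add_zero _)) 0,
    Subsingleton.elim (x.comp (Ext.mk₀ (ModuleCat.ofHom (toCol (e3 : RA K L X) e3_idem)))
      (add_zero _)) 0,
    Subsingleton.elim (x.comp (Ext.mk₀ (ModuleCat.ofHom (toCol (e4 : RA K L X) e4_idem)))
      (add_zero _)) 0, Ext.zero_comp, Ext.zero_comp, Ext.zero_comp, add_zero, add_zero]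

theorem ext_Ib (n : ℕ) : Subsingleton (Ext.{0} (ModuleCat.of (RA K L X) (Ib K L X))
      (ModuleCat.of (RA K L X) (RA K L X)) (n + 1)) := by
  refine ext_all hX hE (retr_Ib hX) (fun h => ?_) n
  obtain ⟨e, he⟩ := hom_Ib_Lm h
  exact ⟨endIb e, fun m => (he m).symm⟩

theorem ext_Iw (n : ℕ) : Subsingleton (Ext.{0} (ModuleCat.of (RA K L X) (Iw K L X))
      (ModuleCat.of (RA K L X) (RA K L X)) (n + 1)) :=
  ext_all hX hE retr_Iw (fun h => ⟨0, fun m => (hom_Iw_Lm h m).symm⟩) n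

omit hE hX [Module (T K L) X] in
theorem ext_I0 (n : ℕ) : Subsingleton (Ext.{0} (ModuleCat.of (RA K L X) (Col (e0 : RA K L X)))
      (ModuleCat.of (RA K L X) (RA K L X)) (n + 1)) := by
  have hP : Projective (ModuleCat.of (RA K L X) (Col (e0 : RA K L X))) :=
    (IsProjective.iff_projective _).mp (col_proj e0_idem)
  exact subsingleton_of_forall_eq 0 fun x => Ext.eq_zero_of_projective x

end main

end RA

end Pool.Agent.H381.TN
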