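import Pool.Agent.H381.TN.Alg
import Pool.Agent.H381.TN.CoRep
import Pool.Agent.H379.GS.Alg

/-!
# The injective modules over the matrix algebra
-/

set_option autoImplicit false
set_option linter.unusedSectionVars false
set_option linter.unusedVariables false
set_option linter.unusedSimpArgs false

namespace Pool.Agent.H381.TN

open Pool.Agent.H379.GS

/-- The column of an idempotent. -/
def Col {A : Type} [Ring A] (e : A) : Submodule A A where
  carrier := {t | t * e = t}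
  add_mem' := by
    intro s t hs ht
    show (s + t) * e = s + t
    rw [add_mul, show s * e = s from hs, show t * e = t from ht]
  zero_mem' := zero_mul e
  smul_mem' := by
    intro c t ht
    show (c * t) * e = c * t
    rw [mul_assoc, show t * e = t from ht]

theorem mem_Col {A : Type} [Ring A] {e t : A} : t ∈ Col e ↔ t * e = t := Iff.rfl

/-- projection to a column -/
def toCol {A : Type} [Ring A] (e : A) (he : e * e = e) : A →ₗ[A] Col e where
  toFun t := ⟨t * e, by rw [mem_Col, mul_assoc, he]⟩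
  map_add' x y := Subtype.ext (add_mul _ _ _)
  map_smul' c x := Subtype.ext (mul_assoc _ _ _)

theorem col_proj {A : Type} [Ring A] {e : A} (he : e * e = e) : Module.Projective A (Col e) := by
  refine Module.Projective.of_split (Col e).subtype (toCol e he) ?_
  refine LinearMap.ext fun t => Subtype.ext ?_
  exact t.2

namespace RA

variable {K : Type} [Field K] {L : Type} [Ring L] [Algebra K L] {X : Type} [AddCommGroup X]
  [Module K X] [Module L X] [IsScalarTower K L X]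

/-- entry -/
def u11 : L →ₗ[K] RA K L X where
  toFun l := mk l 0 0 0 0 0 0 0 0
  map_add' x y := by refine ext' ?_ ?_ ?_ ?_ ?_ ?_ ?_ ?_ ?_ <;> simp
  map_smul' c x := by refine ext' ?_ ?_ ?_ ?_ ?_ ?_ ?_ ?_ ?_ <;> simp
/-- entry -/
def u12 : (L →ₗ[K] K) →ₗ[K] RA K L X where
  toFun l := mk 0 l 0 0 0 0 0 0 0
  map_add' x y := by refine ext' ?_ ?_ ?_ ?_ ?_ ?_ ?_ ?_ ?_ <;> simp
  map_smul' c x := by refine ext' ?_ ?_ ?_ ?_ ?_ ?_ ?_ ?_ ?_ <;> simp
/-- entry -/
def u13 : X →ₗ[K] RA K L X where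
  toFun l := mk 0 0 l 0 0 0 0 0 0
  map_add' x y := by refine ext' ?_ ?_ ?_ ?_ ?_ ?_ ?_ ?_ ?_ <;> simp
  map_smul' c x := by refine ext' ?_ ?_ ?_ ?_ ?_ ?_ ?_ ?_ ?_ <;> simp
/-- entry -/
def u21 : (L →ₗ[K] K) →ₗ[K] RA K L X where
  toFun l := mk 0 0 0 l 0 0 0 0 0
  map_add' x y := by refine ext' ?_ ?_ ?_ ?_ ?_ ?_ ?_ ?_ ?_ <;> simp
  map_smul' c x := by refine ext' ?_ ?_ ?_ ?_ ?_ ?_ ?_ ?_ ?_ <;> simp
/-- entry -/
def u22 : L →ₗ[K] RA K L X where
  toFun l := mk 0 0 0 0 l 0 0 0 0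
  map_add' x y := by refine ext' ?_ ?_ ?_ ?_ ?_ ?_ ?_ ?_ ?_ <;> simp
  map_smul' c x := by refine ext' ?_ ?_ ?_ ?_ ?_ ?_ ?_ ?_ ?_ <;> simp
/-- entry -/
def u32 : (X →ₗ[K] K) →ₗ[K] RA K L X where
  toFun l := mk 0 0 0 0 0 l 0 0 0
  map_add' x y := by refine ext' ?_ ?_ ?_ ?_ ?_ ?_ ?_ ?_ ?_ <;> simp
  map_smul' c x := by refine ext' ?_ ?_ ?_ ?_ ?_ ?_ ?_ ?_ ?_ <;> simp
/-- entry -/
def u33 : EX L X →ₗ[K] RA K L X where
  toFun l := mk 0 0 0 0 0 0 l 0 0
  map_add' x y := by refine ext' ?_ ?_ ?_ ?_ ?_ ?_ ?_ ?_ ?_ <;> simp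
  map_smul' c x := by refine ext' ?_ ?_ ?_ ?_ ?_ ?_ ?_ ?_ ?_ <;> simp
/-- entry -/
def u34 : (EX L X →ₗ[K] K) →ₗ[K] RA K L X where
  toFun l := mk 0 0 0 0 0 0 0 l 0
  map_add' x y := by refine ext' ?_ ?_ ?_ ?_ ?_ ?_ ?_ ?_ ?_ <;> simp
  map_smul' c x := by refine ext' ?_ ?_ ?_ ?_ ?_ ?_ ?_ ?_ ?_ <;> simp
/-- entry -/
def u44 : EX L X →ₗ[K] RA K L X where
  toFun l := mk 0 0 0 0 0 0 0 0 l
  map_add' x y := by refine ext' ?_ ?_ ?_ ?_ ?_ ?_ ?_ ?_ ?_ <;> simp
  map_smul' c x := by refine ext' ?_ ?_ ?_ ?_ ?_ ?_ ?_ ?_ ?_ <;> simp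

theorem u11_def (l : L) : (u11 l : RA K L X) = mk l 0 0 0 0 0 0 0 0 := rfl
theorem u12_def (l : L →ₗ[K] K) : (u12 l : RA K L X) = mk 0 l 0 0 0 0 0 0 0 := rfl
theorem u13_def (l : X) : (u13 l : RA K L X) = mk 0 0 l 0 0 0 0 0 0 := rfl
theorem u21_def (l : L →ₗ[K] K) : (u21 l : RA K L X) = mk 0 0 0 l 0 0 0 0 0 := rfl
theorem u22_def (l : L) : (u22 l : RA K L X) = mk 0 0 0 0 l 0 0 0 0 := rfl
theorem u32_def (l : X →ₗ[K] K) : (u32 l : RA K L X) = mk 0 0 0 0 0 l 0 0 0 := rfl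
theorem u33_def (l : EX L X) : (u33 l : RA K L X) = mk 0 0 0 0 0 0 l 0 0 := rfl
theorem u34_def (l : EX L X →ₗ[K] K) : (u34 l : RA K L X) = mk 0 0 0 0 0 0 0 l 0 := rfl
theorem u44_def (l : EX L X) : (u44 l : RA K L X) = mk 0 0 0 0 0 0 0 0 l := rfl

/-- idempotents -/
def e0 : RA K L X := mk 1 0 0 0 1 0 0 0 0
/-- idempotents -/
def e3 : RA K L X := mk 0 0 0 0 0 0 LinearMap.id 0 0
/-- idempotents -/
def e4 : RA K L X := mk 0 0 0 0 0 0 0 0 LinearMap.id

theorem e0_idem : (e0 : RA K L X) * e0 = e0 := by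
  refine ext' ?_ ?_ ?_ ?_ ?_ ?_ ?_ ?_ ?_ <;> simp [e0]
theorem e3_idem : (e3 : RA K L X) * e3 = e3 := by
  refine ext' ?_ ?_ ?_ ?_ ?_ ?_ ?_ ?_ ?_ <;> simp [e3]
theorem e4_idem : (e4 : RA K L X) * e4 = e4 := by
  refine ext' ?_ ?_ ?_ ?_ ?_ ?_ ?_ ?_ ?_ <;> simp [e4]
theorem sum_e : (e0 + e3 + e4 : RA K L X) = 1 := by
  refine ext' ?_ ?_ ?_ ?_ ?_ ?_ ?_ ?_ ?_ <;> simp [e0, e3, e4]

theorem dec (a : RA K L X) : a = u11 a.p11 + u12 a.p12 + u13 a.p13 + u21 a.p21 + u22 a.p22 +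
    u32 a.p32 + u33 a.p33 + u34 a.p34 + u44 a.p44 := by
  refine ext' ?_ ?_ ?_ ?_ ?_ ?_ ?_ ?_ ?_ <;>
  simp [u11_def, u12_def, u13_def, u21_def, u22_def, u32_def, u33_def, u34_def, u44_def]

theorem e0_mul (a : RA K L X) : e0 * a = u11 a.p11 + u12 a.p12 + u13 a.p13 + u21 a.p21 +
    u22 a.p22 := by
  refine ext' ?_ ?_ ?_ ?_ ?_ ?_ ?_ ?_ ?_ <;>
  simp [e0, u11_def, u12_def, u13_def, u21_def, u22_def]

theorem e3_mul (a : RA K L X) : e3 * a = u32 a.p32 + u33 a.p33 + u34 a.p34 := by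
  refine ext' ?_ ?_ ?_ ?_ ?_ ?_ ?_ ?_ ?_ <;>
  simp [e3, u32_def, u33_def, u34_def]

theorem e4_mul (a : RA K L X) : e4 * a = u44 a.p44 := by
  refine ext' ?_ ?_ ?_ ?_ ?_ ?_ ?_ ?_ ?_ <;>
  simp [e4, u44_def]

/-! ### The module `D(e₃ A)` -/

variable (K L X) in
/-- the column `(0, X, DE, E)` -/
def Ib : Type := X × (EX L X →ₗ[K] K) × EX L X

namespace Ib

instance : AddCommGroup (Ib K L X) := inferInstanceAs (AddCommGroup
  (X × (EX L X →ₗ[K] K) × EX L X))

/-- entry -/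
def x (v : Ib K L X) : X := v.1
/-- entry -/
def g (v : Ib K L X) : EX L X →ₗ[K] K := v.2.1
/-- entry -/
def b (v : Ib K L X) : EX L X := v.2.2
/-- constructor -/
def mk (x : X) (g : EX L X →ₗ[K] K) (b : EX L X) : Ib K L X := (x, g, b)

@[simp] theorem x_mk (x : X) (g : EX L X →ₗ[K] K) (b : EX L X) : (mk x g b).x = x := rfl
@[simp] theorem g_mk (x : X) (g : EX L X →ₗ[K] K) (b : EX L X) : (mk x g b).g = g := rfl
@[simp] theorem b_mk (x : X) (g : EX L X →ₗ[K] K) (b : EX L X) : (mk x g b).b = b := rfl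
@[simp] theorem x_add (v w : Ib K L X) : (v + w).x = v.x + w.x := rfl
@[simp] theorem g_add (v w : Ib K L X) : (v + w).g = v.g + w.g := rfl
@[simp] theorem b_add (v w : Ib K L X) : (v + w).b = v.b + w.b := rfl
@[simp] theorem x_zero : (0 : Ib K L X).x = 0 := rfl
@[simp] theorem g_zero : (0 : Ib K L X).g = 0 := rfl
@[simp] theorem b_zero : (0 : Ib K L X).b = 0 := rfl

theorem ext {v w : Ib K L X} (h1 : v.x = w.x) (h2 : ∀ u, v.g u = w.g u)
    (h3 : ∀ y, v.b y = w.b y) : v = w :=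
  Prod.ext h1 (Prod.ext (LinearMap.ext h2) (LinearMap.ext h3))

/-- `u ↦ f (u x)` -/
def xe (f : X →ₗ[K] K) (x : X) : EX L X →ₗ[K] K where
  toFun u := f (u x)
  map_add' u v := by rw [LinearMap.add_apply, map_add]
  map_smul' c u := by rw [LinearMap.smul_apply, map_smul, RingHom.id_apply]

@[simp] theorem xe_apply (f : X →ₗ[K] K) (x : X) (u : EX L X) : xe f x u = f (u x) := rfl

instance : SMul (RA K L X) (Ib K L X) := ⟨fun a v => mk (a.p22 • v.x)
  (xe a.p32 v.x + ud a.p33 v.g + du a.p34 v.b) (v.b ∘ₗ a.p44)⟩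

@[simp] theorem x_smul (a : RA K L X) (v : Ib K L X) : (a • v).x = a.p22 • v.x := rfl
@[simp] theorem g_smul (a : RA K L X) (v : Ib K L X) :
  (a • v).g = xe a.p32 v.x + ud a.p33 v.g + du a.p34 v.b := rfl
@[simp] theorem b_smul (a : RA K L X) (v : Ib K L X) : (a • v).b = v.b ∘ₗ a.p44 := rfl

instance : Module (RA K L X) (Ib K L X) where
  one_smul v := by refine ext ?_ ?_ ?_ <;> simp
  mul_smul a b v := by
    refine ext ?_ ?_ ?_
    · simp [mul_smul]
    · intro u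
      simp [LinearMap.comp_assoc, add_assoc]
    · intro y
      simp
  smul_zero a := by refine ext ?_ ?_ ?_ <;> simp
  smul_add a v w := by
    refine ext ?_ ?_ ?_
    · simp
    · intro u
      simp [LinearMap.comp_add]
      abel
    · intro y
      simp
  add_smul a b v := by
    refine ext ?_ ?_ ?_
    · simp [add_smul]
    · intro u
      simp [LinearMap.add_comp]
      abel
    · intro y
      simp
  zero_smul v := by refine ext ?_ ?_ ?_ <;> simp

/-- evaluation -/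
def ev (v : Ib K L X) : K := v.g LinearMap.id

theorem ev_smul (a : RA K L X) (v : Ib K L X) :
    ev (a • v) = a.p32 v.x + v.g a.p33 + a.p34 v.b := by
  simp [ev]

end Ib

theorem algebraMap_p (c : K) : algebraMap K (RA K L X) c = c • 1 := Algebra.algebraMap_eq_smul_one c

theorem Ib.coRep [Module.Finite K L] [Module.Finite K X] :
    CoRep (A := RA K L X) (K := K) e3 (Ib.ev (K := K) (L := L) (X := X)) where
  idem := e3_idem
  ev_add v w := by simp [Ib.ev]
  ev_e v := by rw [Ib.ev_smul]; simp [Ib.ev, e3]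
  ev_smul c v := by
    rw [Ib.ev_smul, algebraMap_p]
    simp [Ib.ev]
  nondeg v h := by
    refine Ib.ext ?_ ?_ ?_
    · refine (Module.forall_dual_apply_eq_zero_iff K v.x).1 fun f => ?_
      have := h (u32 f)
      rw [Ib.ev_smul] at this
      simpa [u32_def] using this
    · intro u
      have := h (u33 u)
      rw [Ib.ev_smul] at this
      simpa [u33_def] using this
    · intro y
      have h0 : v.b = 0 := by
        refine (Module.forall_dual_apply_eq_zero_iff K v.b).1 fun f => ?_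
        have := h (u34 f)
        rw [Ib.ev_smul] at this
        simpa [u34_def] using this
      rw [h0]
      rfl
  ex Φ hΦ := by
    obtain ⟨x, hx⟩ := (Module.evalEquiv K X).surjective (Φ ∘ₗ u32)
    obtain ⟨b, hb⟩ := (Module.evalEquiv K (EX L X)).surjective (Φ ∘ₗ u34)
    refine ⟨Ib.mk x (Φ ∘ₗ u33) b, fun a => ?_⟩
    rw [Ib.ev_smul, ← hΦ, e3_mul, map_add, map_add]
    have h1 : a.p32 x = Φ (u32 a.p32) := LinearMap.congr_fun hx a.p32
    have h2 : a.p34 b = Φ (u34 a.p34) := LinearMap.congr_fun hb a.p34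
    rw [← h1, ← h2]
    rfl

/-! ### The module `D(e₄ A)` -/

variable (K L X) in
/-- the column `(0, 0, 0, DE)` -/
def Iw : Type := EX L X →ₗ[K] K

namespace Iw

instance : AddCommGroup (Iw K L X) := inferInstanceAs (AddCommGroup (EX L X →ₗ[K] K))

/-- entry -/
def g (v : Iw K L X) : EX L X →ₗ[K] K := v
/-- constructor -/
def mk (g : EX L X →ₗ[K] K) : Iw K L X := g

@[simp] theorem g_mk (g : EX L X →ₗ[K] K) : (mk g).g = g := rfl
@[simp] theorem g_add (v w : Iw K L X) : (v + w).g = v.g + w.g := rfl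
@[simp] theorem g_zero : (0 : Iw K L X).g = 0 := rfl

theorem ext {v w : Iw K L X} (h2 : ∀ u, v.g u = w.g u) : v = w := LinearMap.ext h2

instance : SMul (RA K L X) (Iw K L X) := ⟨fun a v => mk (ud a.p44 v.g)⟩

@[simp] theorem g_smul (a : RA K L X) (v : Iw K L X) : (a • v).g = ud a.p44 v.g := rfl

instance : Module (RA K L X) (Iw K L X) where
  one_smul v := by refine ext ?_; simp
  mul_smul a b v := by
    refine ext ?_
    intro u
    simp [LinearMap.comp_assoc]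
  smul_zero a := by refine ext ?_; simp
  smul_add a v w := by refine ext ?_; simp
  add_smul a b v := by
    refine ext ?_
    intro u
    simp [LinearMap.add_comp]
  zero_smul v := by refine ext ?_; simp

/-- evaluation -/
def ev (v : Iw K L X) : K := v.g LinearMap.id

theorem ev_smul (a : RA K L X) (v : Iw K L X) : ev (a • v) = v.g a.p44 := by
  simp [ev]

theorem coRep : CoRep (A := RA K L X) (K := K) e4 (Iw.ev (K := K) (L := L) (X := X)) where
  idem := e4_idem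
  ev_add v w := by simp [Iw.ev]
  ev_e v := by rw [Iw.ev_smul]; simp [Iw.ev, e4]
  ev_smul c v := by
    rw [Iw.ev_smul, algebraMap_p]
    simp [Iw.ev]
  nondeg v h := by
    refine Iw.ext fun u => ?_
    have := h (u44 u)
    rw [Iw.ev_smul] at this
    simpa [u44_def] using this
  ex Φ hΦ := by
    refine ⟨Iw.mk (Φ ∘ₗ u44), fun a => ?_⟩
    rw [Iw.ev_smul, ← hΦ, e4_mul]
    rfl

end Iw

/-! ### The module `A e₀` -/

theorem col0 (c : Col (e0 : RA K L X)) : c.1.p13 = 0 ∧ c.1.p33 = 0 ∧ c.1.p34 = 0 ∧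
    c.1.p44 = 0 := by
  have h := mem_Col.1 c.2
  refine ⟨?_, ?_, ?_, ?_⟩
  · rw [← h]; simp [e0]
  · rw [← h]; simp [e0]
  · rw [← h]; refine LinearMap.ext fun u => ?_; simp [e0]
  · rw [← h]; simp [e0]

theorem mem_col0 {a : RA K L X} (h1 : a.p13 = 0) (h2 : a.p33 = 0) (h3 : a.p34 = 0)
    (h4 : a.p44 = 0) : a ∈ Col (e0 : RA K L X) := by
  rw [mem_Col]
  refine ext' ?_ ?_ ?_ ?_ ?_ ?_ ?_ ?_ ?_ <;> simp [e0, h1, h2, h3, h4]

/-- evaluation -/
def ev0 (c : Col (e0 : RA K L X)) : K := c.1.p12 1 + c.1.p21 1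

theorem ev0_smul (a : RA K L X) (c : Col (e0 : RA K L X)) :
    ev0 (a • c) = c.1.p12 a.p11 + a.p12 c.1.p22 + c.1.p32 a.p13 + c.1.p21 a.p22 +
      a.p21 c.1.p11 := by
  show (a * c.1).p12 1 + (a * c.1).p21 1 = _
  simp [add_assoc]

theorem coRep0 [Module.Finite K L] [Module.Finite K X] :
    CoRep (A := RA K L X) (K := K) e0 (ev0 (K := K) (L := L) (X := X)) where
  idem := e0_idem
  ev_add v w := by
    simp [ev0]
    ring
  ev_e v := by rw [ev0_smul]; simp [ev0, e0]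
  ev_smul c v := by
    rw [ev0_smul, algebraMap_p]
    simp [ev0]
    ring
  nondeg v h := by
    obtain ⟨h13, h33, h34, h44⟩ := col0 v
    refine Subtype.ext (ext' ?_ ?_ ?_ ?_ ?_ ?_ ?_ ?_ ?_)
    · refine (Module.forall_dual_apply_eq_zero_iff K v.1.p11).1 fun f => ?_
      have := h (u21 f)
      rw [ev0_smul] at this
      simpa [u21_def] using this
    · intro l
      have := h (u11 l)
      rw [ev0_smul] at this
      simpa [u11_def] using this
    · rw [h13]; rfl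
    · intro l
      have := h (u22 l)
      rw [ev0_smul] at this
      simpa [u22_def] using this
    · refine (Module.forall_dual_apply_eq_zero_iff K v.1.p22).1 fun f => ?_
      have := h (u12 f)
      rw [ev0_smul] at this
      simpa [u12_def] using this
    · intro x
      have := h (u13 x)
      rw [ev0_smul] at this
      simpa [u13_def] using this
    · rw [h33]; intro _; rfl
    · rw [h34]; intro _; rfl
    · rw [h44]; intro _; rfl
  ex Φ hΦ := by
    obtain ⟨c11, h11⟩ := (Module.evalEquiv K L).surjective (Φ ∘ₗ u21)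
    obtain ⟨c22, h22⟩ := (Module.evalEquiv K L).surjective (Φ ∘ₗ u12)
    refine ⟨⟨mk c11 (Φ ∘ₗ u11) 0 (Φ ∘ₗ u22) c22 (Φ ∘ₗ u13) 0 0 0,
      mem_col0 rfl rfl rfl rfl⟩, fun a => ?_⟩
    rw [ev0_smul, ← hΦ, e0_mul, map_add, map_add, map_add, map_add]
    have h1 : a.p21 c11 = Φ (u21 a.p21) := LinearMap.congr_fun h11 a.p21
    have h2 : a.p12 c22 = Φ (u12 a.p12) := LinearMap.congr_fun h22 a.p12
    rw [← h1, ← h2]
    show Φ (u11 a.p11) + a.p12 c22 + Φ (u13 a.p13) + Φ (u22 a.p22) + a.p21 c11 =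
      Φ (u11 a.p11) + a.p12 c22 + Φ (u13 a.p13) + a.p21 c11 + Φ (u22 a.p22)
    ring

end RA

end Pool.Agent.H381.TN
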